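import Mathlib

set_option autoImplicit false

/-!
# Max-plus maps with natural exponents and their growth

`T S w i` is the largest weight `∑ j, m j * w j` of an exponent `m ∈ S i`.
We prove that the growth rate `θ` of `T^n 1` is attained by a nonnegative eigenvector
and deduce the arithmetic properties of `θ`.
-/

namespace Run7.h640

open Filter Topology

variable {ι : Type*} [Fintype ι]

/-- the weight of the exponent `m` -/
def pair (m : ι →₀ ℕ) (w : ι → ℝ) : ℝ := ∑ j, (m j : ℝ) * w j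

lemma pair_mono (m : ι →₀ ℕ) {w w' : ι → ℝ} (h : w ≤ w') : pair m w ≤ pair m w' := by
  unfold pair
  exact Finset.sum_le_sum (fun j _ => mul_le_mul_of_nonneg_left (h j) (Nat.cast_nonneg _))

lemma pair_smul (m : ι →₀ ℕ) (c : ℝ) (w : ι → ℝ) : pair m (c • w) = c * pair m w := by
  unfold pair
  rw [Finset.mul_sum]
  exact Finset.sum_congr rfl (fun j _ => by simp [Pi.smul_apply]; ring)

lemma pair_add (m : ι →₀ ℕ) (w w' : ι → ℝ) : pair m (w + w') = pair m w + pair m w' := by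
  unfold pair
  rw [← Finset.sum_add_distrib]
  exact Finset.sum_congr rfl (fun j _ => by simp [Pi.add_apply]; ring)

lemma pair_add_left (m m' : ι →₀ ℕ) (w : ι → ℝ) : pair (m + m') w = pair m w + pair m' w := by
  unfold pair
  rw [← Finset.sum_add_distrib]
  exact Finset.sum_congr rfl (fun j _ => by simp [Finsupp.add_apply]; ring)

lemma pair_nonneg (m : ι →₀ ℕ) {w : ι → ℝ} (h : 0 ≤ w) : 0 ≤ pair m w :=
  Finset.sum_nonneg (fun j _ => mul_nonneg (Nat.cast_nonneg _) (h j))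

lemma pair_zero_left (w : ι → ℝ) : pair (0 : ι →₀ ℕ) w = 0 := by simp [pair]

lemma continuous_pair (m : ι →₀ ℕ) : Continuous (pair (ι := ι) m) := by
  unfold pair
  fun_prop

variable (S : ι → Finset (ι →₀ ℕ)) (hS : ∀ i, (S i).Nonempty)

/-- the max-plus map -/
noncomputable def T (w : ι → ℝ) : ι → ℝ := fun i => (S i).sup' (hS i) (fun m => pair m w)

lemma le_T {i : ι} {m : ι →₀ ℕ} (hm : m ∈ S i) (w : ι → ℝ) : pair m w ≤ T S hS w i :=
  Finset.le_sup' (fun m => pair m w) hm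

lemma T_le {i : ι} {w : ι → ℝ} {r : ℝ} (h : ∀ m ∈ S i, pair m w ≤ r) : T S hS w i ≤ r :=
  Finset.sup'_le _ _ h

lemma exists_T_eq (w : ι → ℝ) (i : ι) : ∃ m ∈ S i, pair m w = T S hS w i := by
  obtain ⟨m, hm, h⟩ := Finset.exists_mem_eq_sup' (hS i) (fun m => pair m w)
  exact ⟨m, hm, h.symm⟩

lemma T_mono : Monotone (T S hS) := by
  intro w w' h i
  exact T_le S hS (fun m hm => (pair_mono m h).trans (le_T S hS hm w'))

lemma T_smul {c : ℝ} (hc : 0 ≤ c) (w : ι → ℝ) : T S hS (c • w) = c • T S hS w := by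
  funext i
  apply le_antisymm
  · refine T_le S hS (fun m hm => ?_)
    rw [pair_smul]
    exact mul_le_mul_of_nonneg_left (le_T S hS hm w) hc
  · obtain ⟨m, hm, h⟩ := exists_T_eq S hS w i
    simp only [Pi.smul_apply, smul_eq_mul]
    rw [← h, ← pair_smul]
    exact le_T S hS hm _

lemma T_add_le (w w' : ι → ℝ) : T S hS (w + w') ≤ T S hS w + T S hS w' := by
  intro i
  refine T_le S hS (fun m hm => ?_)
  rw [pair_add]
  exact add_le_add (le_T S hS hm w) (le_T S hS hm w')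

lemma T_zero : T S hS 0 = 0 := by
  have := T_smul S hS (le_refl (0 : ℝ)) (0 : ι → ℝ)
  simpa using this

lemma T_nonneg {w : ι → ℝ} (h : 0 ≤ w) : 0 ≤ T S hS w := by
  have := T_mono S hS h
  rwa [T_zero] at this

lemma continuous_T : Continuous (T S hS) := by
  refine continuous_pi (fun i => ?_)
  have : (fun w => T S hS w i) = (fun w => (S i).sup' (hS i) (fun m => pair m w)) := rfl
  rw [this]
  exact Continuous.finset_sup'_apply (hS i) (fun m _ => continuous_pair m)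

lemma iter_mono (n : ℕ) : Monotone ((T S hS)^[n]) := (T_mono S hS).iterate n

lemma iter_smul {c : ℝ} (hc : 0 ≤ c) (w : ι → ℝ) (n : ℕ) :
    (T S hS)^[n] (c • w) = c • (T S hS)^[n] w := by
  induction n with
  | zero => rfl
  | succ n ih => rw [Function.iterate_succ_apply', Function.iterate_succ_apply', ih, T_smul S hS hc]

lemma iter_nonneg {w : ι → ℝ} (h : 0 ≤ w) (n : ℕ) : 0 ≤ (T S hS)^[n] w := by
  induction n with
  | zero => exact h
  | succ n ih => rw [Function.iterate_succ_apply']; exact T_nonneg S hS ih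

lemma le_norm_smul_one {w : ι → ℝ} : w ≤ ‖w‖ • (1 : ι → ℝ) := by
  intro i
  simp only [Pi.smul_apply, Pi.one_apply, smul_eq_mul, mul_one]
  exact (le_abs_self _).trans (norm_le_pi_norm w i)

lemma norm_mono {w w' : ι → ℝ} (h0 : 0 ≤ w) (h : w ≤ w') : ‖w‖ ≤ ‖w'‖ := by
  refine (pi_norm_le_iff_of_nonneg (norm_nonneg _)).2 (fun i => ?_)
  rw [Real.norm_eq_abs, abs_of_nonneg (h0 i)]
  exact (h i).trans ((le_abs_self _).trans (norm_le_pi_norm w' i))

/-- size of the `n`-th iterate -/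
noncomputable def N (n : ℕ) : ℝ := ‖(T S hS)^[n] 1‖

lemma N_nonneg (n : ℕ) : 0 ≤ N S hS n := norm_nonneg _

lemma N_mul (m n : ℕ) : N S hS (m + n) ≤ N S hS m * N S hS n := by
  have h1 : (T S hS)^[m + n] 1 ≤ ‖(T S hS)^[n] 1‖ • (T S hS)^[m] 1 := by
    rw [Function.iterate_add_apply, ← iter_smul S hS (norm_nonneg _)]
    exact iter_mono S hS m le_norm_smul_one
  have h2 := norm_mono (iter_nonneg S hS zero_le_one (m + n)) h1
  unfold N
  rw [norm_smul, Real.norm_eq_abs, abs_of_nonneg (norm_nonneg _)] at h2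
  linarith [h2, mul_comm ‖(T S hS)^[n] 1‖ ‖(T S hS)^[m] 1‖]

lemma pos_lower {S : ι → Finset (ι →₀ ℕ)} {hS : ∀ i, (S i).Nonempty}
    (h1 : ∀ n, 1 ≤ N S hS n) (n : ℕ) : 0 < N S hS n := lt_of_lt_of_le one_pos (h1 n)

/-- **growth rate** -/
lemma exists_theta (h1 : ∀ n, 1 ≤ N S hS n) :
    ∃ θ : ℝ, 1 ≤ θ ∧ Tendsto (fun n : ℕ => (N S hS n) ^ ((1 : ℝ) / n)) atTop (𝓝 θ) ∧
      ∀ n, θ ^ n ≤ N S hS n := by
  set u : ℕ → ℝ := fun n => Real.log (N S hS n) with hu
  have hsub : Subadditive u := by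
    intro m n
    rw [hu]
    simp only
    rw [← Real.log_mul (pos_lower h1 m).ne' (pos_lower h1 n).ne']
    exact Real.log_le_log (pos_lower h1 _) (N_mul S hS m n)
  have hu0 : ∀ n, 0 ≤ u n := fun n => Real.log_nonneg (h1 n)
  have hbdd : BddBelow (Set.range fun n => u n / (n : ℝ)) := by
    refine ⟨0, ?_⟩
    rintro _ ⟨n, rfl⟩
    exact div_nonneg (hu0 n) (Nat.cast_nonneg n)
  have hlim := hsub.tendsto_lim hbdd
  have hlim0 : 0 ≤ hsub.lim := ge_of_tendsto' hlim (fun n => div_nonneg (hu0 n) (Nat.cast_nonneg n))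
  refine ⟨Real.exp hsub.lim, Real.one_le_exp hlim0, ?_, ?_⟩
  · have h2 : Tendsto (fun n : ℕ => Real.exp (u n / n)) atTop (𝓝 (Real.exp hsub.lim)) :=
      (Real.continuous_exp.tendsto _).comp hlim
    refine h2.congr (fun n => ?_)
    rw [Real.rpow_def_of_pos (pos_lower h1 n)]
    congr 1
    rw [hu]
    ring
  · intro n
    rcases Nat.eq_zero_or_pos n with rfl | hn
    · simpa using h1 0
    · have h3 : hsub.lim ≤ u n / n := hsub.lim_le_div hbdd hn.ne'
      have h4 : (n : ℝ) * hsub.lim ≤ u n := by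
        have hn' : (0 : ℝ) < n := by exact_mod_cast hn
        have := (le_div_iff₀ hn').1 h3
        linarith
      rw [← Real.exp_nat_mul]
      calc Real.exp (n * hsub.lim) ≤ Real.exp (u n) := Real.exp_le_exp.2 h4
        _ = N S hS n := Real.exp_log (pos_lower h1 n)

section resolvent

variable {S hS}
variable {θ : ℝ}

/-- the approximating sequence for `u = 1 + μ⁻¹ T u` -/
noncomputable def U (S : ι → Finset (ι →₀ ℕ)) (hS : ∀ i, (S i).Nonempty) (μ : ℝ) : ℕ → (ι → ℝ)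
  | 0 => 0
  | n + 1 => 1 + μ⁻¹ • T S hS (U S hS μ n)

lemma U_mono {μ : ℝ} (hμ : 0 < μ) : Monotone (U S hS μ) := by
  refine monotone_nat_of_le_succ (fun n => ?_)
  induction n with
  | zero =>
    simp only [U, T_zero, smul_zero, add_zero]
    exact zero_le_one
  | succ n ih =>
    have : μ⁻¹ • T S hS (U S hS μ n) ≤ μ⁻¹ • T S hS (U S hS μ (n + 1)) := by
      intro i
      simp only [Pi.smul_apply, smul_eq_mul]
      exact mul_le_mul_of_nonneg_left (T_mono S hS ih i) (inv_nonneg.2 hμ.le)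
    calc U S hS μ (n + 1) = 1 + μ⁻¹ • T S hS (U S hS μ n) := rfl
      _ ≤ 1 + μ⁻¹ • T S hS (U S hS μ (n + 1)) := add_le_add le_rfl this
      _ = U S hS μ (n + 2) := rfl

lemma T_sum_le (s : Finset ℕ) (f : ℕ → (ι → ℝ)) :
    T S hS (∑ j ∈ s, f j) ≤ ∑ j ∈ s, T S hS (f j) := by
  classical
  induction s using Finset.induction_on with
  | empty => simp [T_zero]
  | insert a s ha ih =>
    rw [Finset.sum_insert ha, Finset.sum_insert ha]
    exact (T_add_le S hS _ _).trans (add_le_add le_rfl ih)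

lemma U_le {μ : ℝ} (hμ : 0 < μ) (k : ℕ) :
    U S hS μ k ≤ ∑ j ∈ Finset.range k, (μ⁻¹) ^ j • (T S hS)^[j] 1 := by
  induction k with
  | zero => simp [U]
  | succ k ih =>
    have hinv : 0 ≤ μ⁻¹ := inv_nonneg.2 hμ.le
    have h1 : T S hS (U S hS μ k) ≤ ∑ j ∈ Finset.range k, (μ⁻¹) ^ j • (T S hS)^[j + 1] 1 := by
      refine (T_mono S hS ih).trans ((T_sum_le _ _).trans (le_of_eq ?_))
      refine Finset.sum_congr rfl (fun j _ => ?_)
      rw [T_smul S hS (pow_nonneg hinv j), Function.iterate_succ_apply']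
    have h2 : μ⁻¹ • T S hS (U S hS μ k) ≤
        ∑ j ∈ Finset.range k, (μ⁻¹) ^ (j + 1) • (T S hS)^[j + 1] 1 := by
      have : μ⁻¹ • (∑ j ∈ Finset.range k, (μ⁻¹) ^ j • (T S hS)^[j + 1] 1) =
          ∑ j ∈ Finset.range k, (μ⁻¹) ^ (j + 1) • (T S hS)^[j + 1] 1 := by
        rw [Finset.smul_sum]
        exact Finset.sum_congr rfl (fun j _ => by rw [smul_smul, pow_succ, mul_comm])
      rw [← this]
      intro i
      simp only [Pi.smul_apply, smul_eq_mul]
      exact mul_le_mul_of_nonneg_left (h1 i) hinv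
    rw [Finset.sum_range_succ']
    simp only [pow_zero, one_smul, Function.iterate_zero, id_eq]
    have h3 : U S hS μ (k + 1) = μ⁻¹ • T S hS (U S hS μ k) + 1 := by
      rw [add_comm (μ⁻¹ • T S hS (U S hS μ k))]; rfl
    rw [h3]
    exact add_le_add h2 le_rfl

lemma U_bdd (hθ : Tendsto (fun n : ℕ => (N S hS n) ^ ((1 : ℝ) / n)) atTop (𝓝 θ)) (hθ0 : 1 ≤ θ)
    {μ : ℝ} (hμ : θ < μ) : ∃ C : ℝ, ∀ k i, U S hS μ k i ≤ C := by
  obtain ⟨ν, hν1, hν2⟩ := exists_between hμ
  have hμ0 : 0 < μ := by linarith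
  have hν0 : 0 < ν := by linarith
  have hev : ∀ᶠ n : ℕ in atTop, N S hS n ≤ ν ^ n := by
    have h1 := hθ.eventually (gt_mem_nhds hν1)
    filter_upwards [h1, eventually_gt_atTop 0] with n hn hn0
    have hn' : (0 : ℝ) < n := by exact_mod_cast hn0
    have hN0 : 0 ≤ N S hS n := norm_nonneg _
    have h2 : (N S hS n ^ ((1 : ℝ) / n)) ^ (n : ℝ) ≤ ν ^ (n : ℝ) :=
      Real.rpow_le_rpow (Real.rpow_nonneg hN0 _) hn.le hn'.le
    rw [← Real.rpow_mul hN0, one_div, inv_mul_cancel₀ hn'.ne', Real.rpow_one,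
      Real.rpow_natCast] at h2
    exact h2
  have hsum : Summable (fun j : ℕ => (μ⁻¹) ^ j * N S hS j) := by
    have hg : Summable (fun j : ℕ => (ν / μ) ^ j) :=
      summable_geometric_of_lt_one (by positivity) ((div_lt_one hμ0).2 hν2)
    refine hg.of_norm_bounded_eventually_nat ?_
    filter_upwards [hev] with n hn
    have hnn : 0 ≤ μ⁻¹ ^ n * N S hS n := mul_nonneg (by positivity) (N_nonneg S hS n)
    rw [Real.norm_eq_abs, abs_of_nonneg hnn, div_pow, inv_pow, div_eq_inv_mul]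
    exact mul_le_mul_of_nonneg_left hn (by positivity)
  refine ⟨∑' j : ℕ, (μ⁻¹) ^ j * N S hS j, fun k i => ?_⟩
  refine (U_le hμ0 k i).trans ?_
  rw [Finset.sum_apply]
  calc ∑ j ∈ Finset.range k, ((μ⁻¹) ^ j • (T S hS)^[j] 1) i
      ≤ ∑ j ∈ Finset.range k, (μ⁻¹) ^ j * N S hS j := by
        refine Finset.sum_le_sum (fun j _ => ?_)
        simp only [Pi.smul_apply, smul_eq_mul]
        exact mul_le_mul_of_nonneg_left
          ((le_abs_self _).trans (norm_le_pi_norm ((T S hS)^[j] 1) i)) (by positivity)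
    _ ≤ _ := hsum.sum_le_tsum _ (fun j _ => mul_nonneg (by positivity) (N_nonneg S hS j))

lemma exists_resolvent (hθ : Tendsto (fun n : ℕ => (N S hS n) ^ ((1 : ℝ) / n)) atTop (𝓝 θ))
    (hθ0 : 1 ≤ θ) {μ : ℝ} (hμ : θ < μ) :
    ∃ u : ι → ℝ, 1 ≤ u ∧ u = 1 + μ⁻¹ • T S hS u := by
  have hμ0 : 0 < μ := by linarith
  obtain ⟨C, hC⟩ := U_bdd hθ hθ0 hμ
  have hlim : ∀ i, Tendsto (fun k => U S hS μ k i) atTop (𝓝 (⨆ k, U S hS μ k i)) := by
    intro i
    refine tendsto_atTop_ciSup (fun a b hab => U_mono hμ0 hab i) ⟨C, ?_⟩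
    rintro _ ⟨k, rfl⟩
    exact hC k i
  set u : ι → ℝ := fun i => ⨆ k, U S hS μ k i with hu
  have hU : Tendsto (fun k => U S hS μ k) atTop (𝓝 u) := tendsto_pi_nhds.2 hlim
  have hU1 : Tendsto (fun k => U S hS μ (k + 1)) atTop (𝓝 u) := (tendsto_add_atTop_iff_nat 1).2 hU
  have hT : Tendsto (fun k => U S hS μ (k + 1)) atTop (𝓝 (1 + μ⁻¹ • T S hS u)) := by
    have hcT := continuous_T S hS
    have : Continuous (fun x : ι → ℝ => 1 + μ⁻¹ • T S hS x) := by fun_prop
    exact (this.tendsto u).comp hU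
  have heq : u = 1 + μ⁻¹ • T S hS u := tendsto_nhds_unique hU1 hT
  refine ⟨u, ?_, heq⟩
  have hu0 : 0 ≤ u := by
    intro i
    exact ge_of_tendsto' (hlim i) (fun k => by
      have := U_mono (S := S) (hS := hS) hμ0 (Nat.zero_le k) i
      simpa [U] using this)
  rw [heq]
  have : 0 ≤ μ⁻¹ • T S hS u := smul_nonneg (inv_nonneg.2 hμ0.le) (T_nonneg S hS hu0)
  simpa using this

end resolvent

/-- **nonlinear Perron-Frobenius**: the growth rate is an eigenvalue. -/
theorem exists_eigenvector [Nonempty ι] {θ : ℝ} (hθ1 : 1 ≤ θ)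
    (hθ : Tendsto (fun n : ℕ => (N S hS n) ^ ((1 : ℝ) / n)) atTop (𝓝 θ))
    (hlow : ∀ n, θ ^ n ≤ N S hS n) :
    ∃ w : ι → ℝ, 0 ≤ w ∧ ‖w‖ = 1 ∧ T S hS w = θ • w := by
  have hθ0 : 0 < θ := by linarith
  have hμ : ∀ k : ℕ, θ < θ + 1 / ((k : ℝ) + 1) := fun k => by
    have : (0 : ℝ) < 1 / ((k : ℝ) + 1) := by positivity
    linarith
  choose u hu1 hu using fun k : ℕ => exists_resolvent (S := S) (hS := hS) hθ hθ1 (hμ k)
  have hun : ∀ k, 1 ≤ ‖u k‖ := by
    intro k
    have := norm_mono (zero_le_one) (hu1 k)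
    rwa [norm_one] at this
  set K : Set ((ι → ℝ) × ℝ) := (Metric.closedBall 0 1) ×ˢ (Set.Icc 0 1) with hK
  have hKc : IsCompact K := (isCompact_closedBall 0 1).prod isCompact_Icc
  set x : ℕ → (ι → ℝ) × ℝ := fun k => (‖u k‖⁻¹ • u k, ‖u k‖⁻¹) with hx
  have hnorm : ∀ k, ‖(x k).1‖ = 1 := by
    intro k
    have h0 : ‖u k‖ ≠ 0 := by linarith [hun k]
    simp only [hx]
    rw [norm_smul, norm_inv, norm_norm, inv_mul_cancel₀ h0]
  have hxK : ∀ k, x k ∈ K := by
    intro k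
    refine ⟨?_, ?_, ?_⟩
    · rw [mem_closedBall_zero_iff, hnorm k]
    · exact inv_nonneg.2 (norm_nonneg _)
    · exact inv_le_one_of_one_le₀ (hun k)
  obtain ⟨⟨w, t⟩, hwt, φ, hφ, hlim⟩ := hKc.tendsto_subseq hxK
  have hw : Tendsto (fun k => (x (φ k)).1) atTop (𝓝 w) := (continuous_fst.tendsto _).comp hlim
  have ht : Tendsto (fun k => (x (φ k)).2) atTop (𝓝 t) := (continuous_snd.tendsto _).comp hlim
  have hw1 : ‖w‖ = 1 := by
    have h1 : Tendsto (fun k => ‖(x (φ k)).1‖) atTop (𝓝 ‖w‖) := (continuous_norm.tendsto _).comp hw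
    have h2 : Tendsto (fun k => ‖(x (φ k)).1‖) atTop (𝓝 1) := by
      simp only [hnorm]
      exact tendsto_const_nhds
    exact tendsto_nhds_unique h1 h2
  have hw0 : 0 ≤ w := by
    refine ge_of_tendsto' hw (fun k => ?_)
    exact smul_nonneg (inv_nonneg.2 (norm_nonneg _)) (zero_le_one.trans (hu1 _))
  have hxeq : ∀ k, (x k).1 = (x k).2 • (1 : ι → ℝ) +
      (θ + 1 / ((k : ℝ) + 1))⁻¹ • T S hS (x k).1 := by
    intro k
    simp only [hx]
    rw [T_smul S hS (inv_nonneg.2 (norm_nonneg _))]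
    have h : ‖u k‖⁻¹ • u k = ‖u k‖⁻¹ • (1 + (θ + 1 / ((k : ℝ) + 1))⁻¹ • T S hS (u k)) :=
      congrArg (fun z => ‖u k‖⁻¹ • z) (hu k)
    rw [h, smul_add, smul_comm]
  have hinv : Tendsto (fun k : ℕ => (θ + 1 / (((φ k : ℕ) : ℝ) + 1))⁻¹) atTop (𝓝 θ⁻¹) := by
    have h1 : Tendsto (fun k : ℕ => θ + 1 / ((k : ℝ) + 1)) atTop (𝓝 (θ + 0)) :=
      tendsto_const_nhds.add tendsto_one_div_add_atTop_nhds_zero_nat
    rw [add_zero] at h1
    exact (h1.comp hφ.tendsto_atTop).inv₀ hθ0.ne'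
  have heq : w = t • (1 : ι → ℝ) + θ⁻¹ • T S hS w := by
    have h1 : Tendsto (fun k => (x (φ k)).1) atTop
        (𝓝 (t • (1 : ι → ℝ) + θ⁻¹ • T S hS w)) := by
      have h2 : Tendsto (fun k => (x (φ k)).2 • (1 : ι → ℝ) +
          (θ + 1 / (((φ k : ℕ) : ℝ) + 1))⁻¹ • T S hS (x (φ k)).1) atTop
          (𝓝 (t • (1 : ι → ℝ) + θ⁻¹ • T S hS w)) :=
        (ht.smul_const _).add (hinv.smul (((continuous_T S hS).tendsto w).comp hw))
      refine h2.congr (fun k => ?_)
      rw [← hxeq]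
    exact tendsto_nhds_unique hw h1
  have ht0 : 0 ≤ t := hwt.2.1
  have ht1 : t ≤ 1 := hwt.2.2
  have htz : t = 0 := by
    by_contra hne
    have htp : 0 < t := lt_of_le_of_ne ht0 (Ne.symm hne)
    -- `T w ≤ θ (1 - t) w`
    have hTw : T S hS w ≤ (θ * (1 - t)) • w := by
      intro i
      have h1 := congrFun heq i
      simp only [Pi.add_apply, Pi.smul_apply, Pi.one_apply, smul_eq_mul, mul_one] at h1 ⊢
      have h2 : w i ≤ 1 := by
        rw [← hw1]; exact (le_abs_self _).trans (norm_le_pi_norm w i)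
      have h3 : T S hS w i = θ * (w i - t) := by
        field_simp at h1
        linarith
      rw [h3]
      have h5 : t * w i ≤ t := by nlinarith
      have h6 : w i - t ≤ (1 - t) * w i := by nlinarith
      have h7 := mul_le_mul_of_nonneg_left h6 hθ0.le
      linarith [mul_assoc θ (1 - t) (w i)]
    have hwt1 : t • (1 : ι → ℝ) ≤ w := by
      intro i
      have h1 := congrFun heq i
      have h2 := T_nonneg S hS hw0 i
      simp only [Pi.add_apply, Pi.smul_apply, Pi.one_apply, smul_eq_mul, mul_one,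
        Pi.zero_apply] at h1 h2 ⊢
      have : 0 ≤ θ⁻¹ * T S hS w i := mul_nonneg (inv_nonneg.2 hθ0.le) h2
      linarith
    have hnn : 0 ≤ θ * (1 - t) := mul_nonneg hθ0.le (by linarith)
    have hit : ∀ n, (T S hS)^[n] w ≤ (θ * (1 - t)) ^ n • w := by
      intro n
      induction n with
      | zero => simp
      | succ n ih =>
        rw [Function.iterate_succ_apply']
        refine (T_mono S hS ih).trans ?_
        rw [T_smul S hS (pow_nonneg hnn n)]
        intro i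
        have := hTw i
        simp only [Pi.smul_apply, smul_eq_mul] at this ⊢
        calc (θ * (1 - t)) ^ n * T S hS w i ≤ (θ * (1 - t)) ^ n * (θ * (1 - t) * w i) :=
              mul_le_mul_of_nonneg_left this (pow_nonneg hnn n)
          _ = (θ * (1 - t)) ^ (n + 1) * w i := by ring
    have hN : ∀ n, θ ^ n ≤ t⁻¹ * (θ * (1 - t)) ^ n := by
      intro n
      refine (hlow n).trans ?_
      have h1 : t • (T S hS)^[n] 1 ≤ (θ * (1 - t)) ^ n • w := by
        rw [← iter_smul S hS ht0]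
        exact (iter_mono S hS n hwt1).trans (hit n)
      have h2 := norm_mono (smul_nonneg ht0 (iter_nonneg S hS zero_le_one n)) h1
      rw [norm_smul, norm_smul, hw1, mul_one, Real.norm_eq_abs, Real.norm_eq_abs,
        abs_of_nonneg ht0, abs_of_nonneg (pow_nonneg hnn n)] at h2
      unfold N
      rw [← div_eq_inv_mul, le_div_iff₀ htp]
      linarith
    have h1t : (1 - t) < 1 := by linarith
    have h1t0 : 0 ≤ 1 - t := by linarith
    have hlim0 : Tendsto (fun n : ℕ => t⁻¹ * (1 - t) ^ n) atTop (𝓝 (t⁻¹ * 0)) :=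
      (tendsto_pow_atTop_nhds_zero_of_lt_one h1t0 h1t).const_mul _
    rw [mul_zero] at hlim0
    obtain ⟨n, hn⟩ := (hlim0.eventually (gt_mem_nhds one_pos)).exists
    have h3 := hN n
    rw [mul_pow] at h3
    have h4 : 0 < θ ^ n := pow_pos hθ0 n
    nlinarith
  refine ⟨w, hw0, hw1, ?_⟩
  rw [htz, zero_smul, zero_add] at heq
  conv_rhs => rw [heq]
  rw [smul_smul, mul_inv_cancel₀ hθ0.ne', one_smul]

end Run7.h640
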