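import Mathlib
import Pool.Agent.Run7.h640.Trop

set_option autoImplicit false

namespace Run7.h640

open Filter Topology Polynomial

variable {ι : Type*} [Fintype ι]

section charpoly

variable [DecidableEq ι]

lemma aeval_charpoly_iff {K : Type*} [Field K] (A : Matrix ι ι ℤ) (μ : K) :
    aeval μ A.charpoly = 0 ↔ ∃ v : ι → K, v ≠ 0 ∧ ∀ i, ∑ j, (A i j : K) * v j = μ * v i := by
  have h1 : aeval μ A.charpoly = (Matrix.scalar ι μ - A.map (Int.castRingHom K)).det := by
    rw [← Matrix.eval_charpoly, Matrix.charpoly_map, Polynomial.eval_map, aeval_def]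
    rfl
  rw [h1, ← Matrix.exists_mulVec_eq_zero_iff]
  refine exists_congr (fun v => and_congr_right (fun _ => ?_))
  rw [Matrix.sub_mulVec, sub_eq_zero, funext_iff]
  refine forall_congr' (fun i => ?_)
  rw [eq_comm]
  have h2 : (Matrix.scalar ι μ).mulVec v i = μ * v i := by
    simp [Matrix.scalar_apply, Matrix.mulVec_diagonal]
  have h3 : (A.map (Int.castRingHom K)).mulVec v i = ∑ j, (A i j : K) * v j := by
    simp [Matrix.mulVec, dotProduct]
  rw [h2, h3]

end charpoly

lemma natDegree_minpoly_le_finrank {w : ι → ℝ} (hw : w ≠ 0) {θ : ℝ} (A : Matrix ι ι ℤ)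
    (hA : ∀ i, ∑ j, (A i j : ℝ) * w j = θ * w i) :
    (minpoly ℚ θ).natDegree ≤ Module.finrank ℚ (Submodule.span ℚ (Set.range w)) := by
  classical
  set V := Submodule.span ℚ (Set.range w) with hV
  have : FiniteDimensional ℚ V := FiniteDimensional.span_of_finite ℚ (Set.finite_range w)
  let L : ℝ →ₗ[ℚ] ℝ := LinearMap.mulLeft ℚ θ
  have hL : ∀ x ∈ V, L x ∈ V := by
    intro x hx
    induction hx using Submodule.span_induction with
    | mem x hx =>
      obtain ⟨i, rfl⟩ := hx
      have : L (w i) = ∑ j, ((A i j : ℚ)) • w j := by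
        simp only [L, LinearMap.mulLeft_apply]
        rw [← hA i]
        refine Finset.sum_congr rfl (fun j _ => ?_)
        rw [Rat.smul_def]
        push_cast
        rfl
      rw [this]
      exact Submodule.sum_mem _ (fun j _ => Submodule.smul_mem _ _ (Submodule.subset_span ⟨j, rfl⟩))
    | zero => simp
    | add x y _ _ hx hy => rw [map_add]; exact V.add_mem hx hy
    | smul a x _ hx => rw [map_smul]; exact V.smul_mem a hx
  let f : V →ₗ[ℚ] V := L.restrict hL
  have hf : ∀ (p : ℚ[X]) (x : V), ((aeval f p) x : ℝ) = aeval θ p * (x : ℝ) := by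
    intro p x
    induction p using Polynomial.induction_on' with
    | add p q hp hq => simp only [map_add, LinearMap.add_apply, Submodule.coe_add, hp, hq, add_mul]
    | monomial n a =>
      rw [aeval_monomial, aeval_monomial]
      have hpow : ∀ k : ℕ, (((f ^ k) x : V) : ℝ) = θ ^ k * (x : ℝ) := by
        intro k
        induction k with
        | zero => simp
        | succ k ih =>
          rw [pow_succ', Module.End.mul_apply]
          have : ((f ((f ^ k) x) : V) : ℝ) = θ * ((f ^ k) x : V) := rfl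
          rw [this, ih]
          ring
      rw [Module.End.mul_apply]
      have h1 : ((algebraMap ℚ (Module.End ℚ V) a) ((f ^ n) x) : V) = a • ((f ^ n) x) := by
        rw [Module.algebraMap_end_apply]
      rw [h1, Submodule.coe_smul, hpow n, Rat.smul_def]
      simp [mul_assoc]
  obtain ⟨i, hi⟩ : ∃ i, w i ≠ 0 := by
    by_contra hcon
    push Not at hcon
    exact hw (funext hcon)
  have hz : aeval θ f.charpoly = 0 := by
    have h1 := hf f.charpoly ⟨w i, Submodule.subset_span ⟨i, rfl⟩⟩
    rw [LinearMap.aeval_self_charpoly] at h1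
    simp only [LinearMap.zero_apply, Submodule.coe_zero] at h1
    rcases mul_eq_zero.1 h1.symm with h2 | h2
    · exact h2
    · exact absurd h2 hi
  have hdvd : minpoly ℚ θ ∣ f.charpoly := minpoly.dvd ℚ θ hz
  rw [← LinearMap.charpoly_natDegree f]
  exact natDegree_le_of_dvd hdvd (LinearMap.charpoly_monic f).ne_zero

/-- complex vectors with `A v = μ v` grow at most like the iterates of `T` -/
lemma norm_pow_le (S : ι → Finset (ι →₀ ℕ)) (hS : ∀ i, (S i).Nonempty) (M : ι → (ι →₀ ℕ))
    (hM : ∀ i, M i ∈ S i) {μ : ℂ} {v : ι → ℂ} (hv : v ≠ 0)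
    (h : ∀ i, ∑ j, (M i j : ℂ) * v j = μ * v i) (n : ℕ) : ‖μ‖ ^ n ≤ N S hS n := by
  set a : ι → ℝ := fun i => ‖v i‖ with ha
  have ha0 : 0 ≤ a := fun i => norm_nonneg _
  have hane : 0 < ‖a‖ := by
    rw [norm_pos_iff]
    intro h0
    apply hv
    funext i
    have := congrFun h0 i
    simpa [ha] using this
  have hstep : ‖μ‖ • a ≤ T S hS a := by
    intro i
    refine le_trans ?_ (le_T S hS (hM i) a)
    simp only [Pi.smul_apply, smul_eq_mul, ha]
    rw [← norm_mul, ← h i]
    refine (norm_sum_le _ _).trans (le_of_eq ?_)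
    unfold pair
    exact Finset.sum_congr rfl (fun j _ => by rw [norm_mul, Complex.norm_natCast])
  have hit : ∀ n, ‖μ‖ ^ n • a ≤ (T S hS)^[n] a := by
    intro n
    induction n with
    | zero => simp
    | succ n ih =>
      rw [Function.iterate_succ_apply']
      refine le_trans ?_ (T_mono S hS ih)
      rw [T_smul S hS (pow_nonneg (norm_nonneg _) n), pow_succ, mul_smul]
      intro i
      have := hstep i
      simp only [Pi.smul_apply, smul_eq_mul] at this ⊢
      exact mul_le_mul_of_nonneg_left this (pow_nonneg (norm_nonneg _) n)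
  have h1 : ‖μ‖ ^ n • a ≤ ‖a‖ • (T S hS)^[n] 1 := by
    refine (hit n).trans ?_
    rw [← iter_smul S hS (norm_nonneg _)]
    exact iter_mono S hS n le_norm_smul_one
  have h2 := norm_mono (smul_nonneg (pow_nonneg (norm_nonneg _) n) ha0) h1
  rw [norm_smul, norm_smul, norm_norm, Real.norm_eq_abs, abs_of_nonneg (pow_nonneg (norm_nonneg _) n)]
    at h2
  have h3 : ‖a‖ * ‖μ‖ ^ n ≤ ‖a‖ * N S hS n := by
    unfold N
    linarith
  exact le_of_mul_le_mul_left h3 hane

theorem theta_arith (S : ι → Finset (ι →₀ ℕ)) (hS : ∀ i, (S i).Nonempty) {θ : ℝ}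
    (hθ1 : 1 ≤ θ) (hθ : Tendsto (fun n : ℕ => (N S hS n) ^ ((1 : ℝ) / n)) atTop (𝓝 θ))
    {w : ι → ℝ} (hw : w ≠ 0) (hTw : T S hS w = θ • w) :
    IsIntegral ℤ θ ∧ (∀ μ : ℂ, aeval μ (minpoly ℤ θ) = 0 → ‖μ‖ ≤ θ) ∧
      (minpoly ℤ θ).natDegree ≤ Module.finrank ℚ (Submodule.span ℚ (Set.range w)) := by
  classical
  choose M hM hMw using exists_T_eq S hS w
  let A : Matrix ι ι ℤ := fun i j => (M i j : ℤ)
  have hA : ∀ i, ∑ j, (A i j : ℝ) * w j = θ * w i := by
    intro i
    have h1 := hMw i
    rw [hTw] at h1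
    simp only [Pi.smul_apply, smul_eq_mul] at h1
    rw [← h1]
    unfold pair
    exact Finset.sum_congr rfl (fun j _ => by simp [A])
  have hroot : aeval θ A.charpoly = 0 := (aeval_charpoly_iff A θ).2 ⟨w, hw, hA⟩
  have hint : IsIntegral ℤ θ := ⟨A.charpoly, A.charpoly_monic, by rwa [← aeval_def]⟩
  refine ⟨hint, ?_, ?_⟩
  · intro μ hμ
    have hdvd : minpoly ℤ θ ∣ A.charpoly := minpoly.isIntegrallyClosed_dvd hint hroot
    have h1 : aeval μ A.charpoly = 0 := by
      obtain ⟨q, hq⟩ := hdvd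
      rw [hq, map_mul, hμ, zero_mul]
    obtain ⟨v, hv, hAv⟩ := (aeval_charpoly_iff A μ).1 h1
    have hb := norm_pow_le S hS M hM hv (fun i => by simpa [A] using hAv i)
    refine ge_of_tendsto hθ ?_
    filter_upwards [eventually_gt_atTop 0] with n hn
    have hn' : (0 : ℝ) < n := by exact_mod_cast hn
    have h2 : (‖μ‖ ^ n) ^ ((1 : ℝ) / n) ≤ (N S hS n) ^ ((1 : ℝ) / n) :=
      Real.rpow_le_rpow (pow_nonneg (norm_nonneg _) n) (hb n) (by positivity)
    rwa [← Real.rpow_natCast, ← Real.rpow_mul (norm_nonneg _), mul_one_div, div_self hn'.ne',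
      Real.rpow_one] at h2
  · have h1 := natDegree_minpoly_le_finrank hw A hA
    rw [minpoly.isIntegrallyClosed_eq_field_fractions' ℚ hint] at h1
    rwa [(minpoly.monic hint).natDegree_map] at h1

end Run7.h640
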