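import Mathlib

set_option autoImplicit false

/-!
# Kernels of the iterates of an endomorphism of a polynomial ring stabilise after `d` steps
-/

namespace Run7.h640

open MvPolynomial

theorem iterate_ne_zero {ι : Type*} [Fintype ι] {k : Type*} [Field k]
    (g : MvPolynomial ι k →+* MvPolynomial ι k) (P : MvPolynomial ι k)
    (h : (g ^ (Fintype.card ι)) P ≠ 0) (n : ℕ) : (g ^ n) P ≠ 0 := by
  set d := Fintype.card ι with hd
  set K : ℕ → Ideal (MvPolynomial ι k) := fun n => RingHom.ker (g ^ n) with hK
  have hmem : ∀ n x, x ∈ K n ↔ (g ^ n) x = 0 := fun n x => RingHom.mem_ker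
  have hmono1 : ∀ n, K n ≤ K (n + 1) := by
    intro n x hx
    rw [hmem] at hx ⊢
    rw [pow_succ']
    change g ((g ^ n) x) = 0
    rw [hx, map_zero]
  have hmono : Monotone K := monotone_nat_of_le_succ hmono1
  have hstab1 : ∀ n, K n = K (n + 1) → K (n + 1) = K (n + 2) := by
    intro n hn
    refine le_antisymm (hmono1 _) (fun x hx => ?_)
    have h1 : g x ∈ K (n + 1) := by
      rw [hmem] at hx ⊢
      rw [show n + 2 = (n + 1) + 1 from rfl, pow_succ] at hx
      exact hx
    rw [← hn, hmem] at h1
    rw [hmem, pow_succ]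
    exact h1
  have hstab : ∀ j, K j = K (j + 1) → ∀ i, K (j + i) = K j := by
    intro j hj
    have haux : ∀ i, K (j + i) = K (j + i + 1) := by
      intro i
      induction i with
      | zero => exact hj
      | succ i ih => exact hstab1 _ ih
    intro i
    induction i with
    | zero => rfl
    | succ i ih => rw [← Nat.add_assoc, ← haux i, ih]
  obtain ⟨j, hjd, hj⟩ : ∃ j ≤ d, K j = K (j + 1) := by
    by_contra hcon
    push Not at hcon
    have hlt : ∀ j ≤ d, K j < K (j + 1) := fun j hj => lt_of_le_of_ne (hmono1 j) (hcon j hj)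
    have hprime : ∀ n, (K n).IsPrime := fun n => RingHom.ker_isPrime _
    let s : LTSeries (PrimeSpectrum (MvPolynomial ι k)) :=
      { length := d + 1
        toFun := fun i => ⟨K i, hprime i⟩
        step := by
          intro i
          have : K (i : ℕ) < K ((i : ℕ) + 1) := hlt i (by omega)
          exact this }
    have h1 := Order.LTSeries.length_le_krullDim s
    have h2 : ringKrullDim (MvPolynomial ι k) = (d : WithBot ℕ∞) := by
      rw [MvPolynomial.ringKrullDim_of_isNoetherianRing, ringKrullDim_eq_zero_of_field, zero_add,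
        Nat.card_eq_fintype_card]
    change ((d + 1 : ℕ) : WithBot ℕ∞) ≤ ringKrullDim (MvPolynomial ι k) at h1
    rw [h2] at h1
    have h3 : d + 1 ≤ d := by exact_mod_cast h1
    omega
  intro hn
  have h1 : P ∈ K n := (hmem n P).2 hn
  apply h
  rw [← hmem]
  rcases le_total n d with h2 | h2
  · exact hmono h2 h1
  · have h3 : K n = K j := by
      have := hstab j hj (n - j)
      rwa [Nat.add_sub_cancel' (hjd.trans h2)] at this
    exact hmono hjd (h3 ▸ h1)

end Run7.h640
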