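import Mathlib
import Pool.Agent.Run7.h640.Trop

set_option autoImplicit false

/-!
# Top parts of polynomials for real weights
-/

namespace Run7.h640

open MvPolynomial

variable {ι : Type*} [Fintype ι] {R : Type*} [CommRing R]

lemma weight_eq_pair (w : ι → ℝ) (m : ι →₀ ℕ) : Finsupp.weight w m = pair m w := by
  rw [Finsupp.weight_apply, Finsupp.sum_fintype]
  · unfold pair
    exact Finset.sum_congr rfl (fun j _ => by rw [nsmul_eq_mul])
  · intro i; simp

/-- all monomials of `P` have weight at most `r` -/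
def wle (w : ι → ℝ) (r : ℝ) (P : MvPolynomial ι R) : Prop := ∀ m ∈ P.support, pair m w ≤ r

/-- the part of weight exactly `r` -/
noncomputable def top (w : ι → ℝ) (r : ℝ) : MvPolynomial ι R →ₗ[R] MvPolynomial ι R :=
  weightedHomogeneousComponent w r

lemma coeff_top (w : ι → ℝ) (r : ℝ) (P : MvPolynomial ι R) (m : ι →₀ ℕ) :
    coeff m (top w r P) = if pair m w = r then coeff m P else 0 := by
  classical
  unfold top
  rw [coeff_weightedHomogeneousComponent, weight_eq_pair]

lemma wle.coeff_eq_zero {w : ι → ℝ} {r : ℝ} {P : MvPolynomial ι R} (h : wle w r P) {m : ι →₀ ℕ}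
    (hm : r < pair m w) : coeff m P = 0 := by
  by_contra hne
  exact absurd (h m (mem_support_iff.2 hne)) (not_le.2 hm)

lemma wle_mul {w : ι → ℝ} {r s : ℝ} {P Q : MvPolynomial ι R} (hP : wle w r P) (hQ : wle w s Q) :
    wle w (r + s) (P * Q) := by
  classical
  intro m hm
  have h1 := support_mul P Q hm
  obtain ⟨a, ha, b, hb, rfl⟩ := Finset.mem_add.1 h1
  rw [pair_add_left]
  exact add_le_add (hP a ha) (hQ b hb)

lemma wle_mono {w : ι → ℝ} {r s : ℝ} {P : MvPolynomial ι R} (hP : wle w r P) (h : r ≤ s) :
    wle w s P := fun m hm => (hP m hm).trans h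

lemma wle_one (w : ι → ℝ) : wle w 0 (1 : MvPolynomial ι R) := by
  classical
  intro m hm
  have : m ∈ ({0} : Finset (ι →₀ ℕ)) := by
    have h1 : (1 : MvPolynomial ι R) = monomial 0 1 := rfl
    rw [h1] at hm
    exact support_monomial_subset hm
  rw [Finset.mem_singleton] at this
  rw [this, pair_zero_left]

lemma wle_C (w : ι → ℝ) (a : R) : wle w 0 (C a : MvPolynomial ι R) := by
  classical
  intro m hm
  have : m ∈ ({0} : Finset (ι →₀ ℕ)) := support_monomial_subset hm
  rw [Finset.mem_singleton] at this
  rw [this, pair_zero_left]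

lemma top_C (w : ι → ℝ) (a : R) : top w 0 (C a : MvPolynomial ι R) = C a := by
  classical
  ext m
  rw [coeff_top, coeff_C]
  by_cases h : 0 = m
  · subst h; simp [pair_zero_left]
  · simp [h]

lemma top_eq_zero {w : ι → ℝ} {r s : ℝ} {P : MvPolynomial ι R} (hP : wle w r P) (h : r < s) :
    top w s P = 0 := by
  ext m
  rw [coeff_top, coeff_zero]
  split_ifs with hm
  · exact hP.coeff_eq_zero (hm ▸ h)
  · rfl

lemma top_mul {w : ι → ℝ} {r s : ℝ} {P Q : MvPolynomial ι R} (hP : wle w r P) (hQ : wle w s Q) :
    top w (r + s) (P * Q) = top w r P * top w s Q := by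
  classical
  ext m
  rw [coeff_top, coeff_mul, coeff_mul]
  by_cases hm : pair m w = r + s
  · rw [if_pos hm]
    refine Finset.sum_congr rfl (fun x hx => ?_)
    rw [Finset.HasAntidiagonal.mem_antidiagonal] at hx
    rw [coeff_top, coeff_top]
    have hx' : pair x.1 w + pair x.2 w = r + s := by rw [← pair_add_left, hx, hm]
    by_cases h1 : r < pair x.1 w
    · rw [hP.coeff_eq_zero h1]; simp
    by_cases h2 : s < pair x.2 w
    · rw [hQ.coeff_eq_zero h2]; simp
    have h3 : pair x.1 w = r := by linarith
    have h4 : pair x.2 w = s := by linarith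
    rw [if_pos h3, if_pos h4]
  · rw [if_neg hm]
    symm
    refine Finset.sum_eq_zero (fun x hx => ?_)
    rw [Finset.HasAntidiagonal.mem_antidiagonal] at hx
    rw [coeff_top, coeff_top]
    split_ifs with h1 h2
    · exfalso
      apply hm
      rw [← hx, pair_add_left, h1, h2]
    · simp
    · simp
    · simp

lemma pow_aux {w : ι → ℝ} {r : ℝ} {P : MvPolynomial ι R} (hP : wle w r P) (n : ℕ) :
    wle w (n * r) (P ^ n) ∧ top w (n * r) (P ^ n) = (top w r P) ^ n := by
  induction n with
  | zero =>
    simp only [Nat.cast_zero, zero_mul, pow_zero]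
    exact ⟨wle_one w, by simpa using top_C w (1 : R)⟩
  | succ n ih =>
    have h : ((n + 1 : ℕ) : ℝ) * r = n * r + r := by push_cast; ring
    rw [h, pow_succ, pow_succ]
    exact ⟨wle_mul ih.1 hP, by rw [top_mul ih.1 hP, ih.2]⟩

lemma prod_aux {κ : Type*} {w : ι → ℝ} (s : Finset κ) (r : κ → ℝ) (P : κ → MvPolynomial ι R)
    (hP : ∀ k ∈ s, wle w (r k) (P k)) :
    wle w (∑ k ∈ s, r k) (∏ k ∈ s, P k) ∧
      top w (∑ k ∈ s, r k) (∏ k ∈ s, P k) = ∏ k ∈ s, top w (r k) (P k) := by
  classical
  induction s using Finset.induction_on with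
  | empty =>
    simp only [Finset.sum_empty, Finset.prod_empty]
    exact ⟨wle_one w, by simpa using top_C w (1 : R)⟩
  | insert a s ha ih =>
    have ih' := ih (fun k hk => hP k (Finset.mem_insert_of_mem hk))
    have ha' := hP a (Finset.mem_insert_self a s)
    rw [Finset.sum_insert ha, Finset.prod_insert ha, Finset.prod_insert ha]
    exact ⟨wle_mul ha' ih'.1, by rw [top_mul ha' ih'.1, ih'.2]⟩

/-- substitution: top part of `P(F)` where `F i` has weight at most `θ * w i` -/
theorem subst_aux {w : ι → ℝ} {θ : ℝ} (hθ : 0 < θ) (F : ι → MvPolynomial ι R)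
    (hF : ∀ i, wle w (θ * w i) (F i)) {r : ℝ} {P : MvPolynomial ι R} (hP : wle w r P) :
    wle w (θ * r) (aeval F P) ∧
      top w (θ * r) (aeval F P) = aeval (fun i => top w (θ * w i) (F i)) (top w r P) := by
  classical
  have hmon : ∀ (m : ι →₀ ℕ) (a : R), wle w (θ * pair m w) (aeval F (monomial m a)) ∧
      top w (θ * pair m w) (aeval F (monomial m a)) =
        aeval (fun i => top w (θ * w i) (F i)) (monomial m a) := by
    intro m a
    rw [aeval_monomial, aeval_monomial, Finsupp.prod_fintype _ _ (fun i => pow_zero _),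
      Finsupp.prod_fintype _ _ (fun i => pow_zero _)]
    have h1 := prod_aux (w := w) (Finset.univ : Finset ι) (fun i => (m i : ℝ) * (θ * w i))
      (fun i => F i ^ m i) (fun i _ => (pow_aux (hF i) (m i)).1)
    have h2 : ∑ i, (m i : ℝ) * (θ * w i) = θ * pair m w := by
      unfold pair
      rw [Finset.mul_sum]
      exact Finset.sum_congr rfl (fun i _ => by ring)
    rw [h2] at h1
    have h3 : ∏ i, top w ((m i : ℝ) * (θ * w i)) (F i ^ m i) =
        ∏ i, (top w (θ * w i) (F i)) ^ m i :=
      Finset.prod_congr rfl (fun i _ => (pow_aux (hF i) (m i)).2)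
    rw [h3] at h1
    have h4 := wle_C (R := R) w a
    constructor
    · have := wle_mul h4 h1.1
      rwa [zero_add] at this
    · have := top_mul h4 h1.1
      rw [zero_add, top_C, h1.2] at this
      exact this
  have hsum : aeval F P = ∑ m ∈ P.support, aeval F (monomial m (coeff m P)) := by
    conv_lhs => rw [P.as_sum]
    rw [map_sum]
  have htop : top w r P = ∑ m ∈ P.support, top w r (monomial m (coeff m P)) := by
    conv_lhs => rw [P.as_sum]
    rw [map_sum]
  constructor
  · rw [hsum]
    intro k hk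
    by_contra hcon
    rw [mem_support_iff] at hk
    apply hk
    rw [coeff_sum]
    refine Finset.sum_eq_zero (fun m hm => ?_)
    refine (hmon m (coeff m P)).1.coeff_eq_zero ?_
    have := mul_le_mul_of_nonneg_left (hP m hm) hθ.le
    linarith [not_le.1 hcon]
  · rw [hsum, htop, map_sum, map_sum]
    refine Finset.sum_congr rfl (fun m hm => ?_)
    rcases eq_or_lt_of_le (hP m hm) with h | h
    · rw [← h, (hmon m (coeff m P)).2]
      congr 1
      ext k
      rw [coeff_top, coeff_monomial]
      by_cases hmk : m = k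
      · subst hmk; simp
      · simp [hmk]
    · have h5 : top w r (monomial m (coeff m P)) = 0 := by
        ext k
        rw [coeff_top, coeff_monomial, coeff_zero]
        by_cases hmk : m = k
        · subst hmk; rw [if_neg h.ne]
        · simp [hmk]
      rw [h5, map_zero]
      exact top_eq_zero (hmon m (coeff m P)).1 (mul_lt_mul_of_pos_left h hθ)

lemma exists_top {w : ι → ℝ} {P : MvPolynomial ι R} (hP : P ≠ 0) :
    ∃ m ∈ P.support, wle w (pair m w) P ∧ top w (pair m w) P ≠ 0 := by
  obtain ⟨m, hm, hmax⟩ := Finset.exists_max_image P.support (fun m => pair m w)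
    (support_nonempty.2 hP)
  refine ⟨m, hm, hmax, ?_⟩
  intro h0
  have := congrArg (coeff m) h0
  rw [coeff_top, if_pos rfl, coeff_zero] at this
  exact (mem_support_iff.1 hm) this

end Run7.h640
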