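import Mathlib
import Pool.Agent.Run7.h640.Trop
import Pool.Agent.Run7.h640.Arith
import Pool.Agent.Run7.h640.Top
import Pool.Agent.Run7.h640.Chain

set_option autoImplicit false

namespace Run7.h640

open Filter Topology MvPolynomial

/-- generic Fekete lemma in multiplicative form -/
lemma exists_lim {a : ℕ → ℝ} (h1 : ∀ n, 1 ≤ a n) (hmul : ∀ m n, a (m + n) ≤ a m * a n) :
    ∃ L : ℝ, 1 ≤ L ∧ Tendsto (fun n : ℕ => (a n) ^ ((1 : ℝ) / n)) atTop (𝓝 L) := by
  have hpos : ∀ n, 0 < a n := fun n => lt_of_lt_of_le one_pos (h1 n)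
  set u : ℕ → ℝ := fun n => Real.log (a n) with hu
  have hsub : Subadditive u := by
    intro m n
    rw [hu]
    simp only
    rw [← Real.log_mul (hpos m).ne' (hpos n).ne']
    exact Real.log_le_log (hpos _) (hmul m n)
  have hu0 : ∀ n, 0 ≤ u n := fun n => Real.log_nonneg (h1 n)
  have hbdd : BddBelow (Set.range fun n => u n / (n : ℝ)) := by
    refine ⟨0, ?_⟩
    rintro _ ⟨n, rfl⟩
    exact div_nonneg (hu0 n) (Nat.cast_nonneg n)
  have hlim := hsub.tendsto_lim hbdd
  have hlim0 : 0 ≤ hsub.lim := ge_of_tendsto' hlim (fun n => div_nonneg (hu0 n) (Nat.cast_nonneg n))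
  refine ⟨Real.exp hsub.lim, Real.one_le_exp hlim0, ?_⟩
  have h2 : Tendsto (fun n : ℕ => Real.exp (u n / n)) atTop (𝓝 (Real.exp hsub.lim)) :=
    (Real.continuous_exp.tendsto _).comp hlim
  refine h2.congr (fun n => ?_)
  rw [Real.rpow_def_of_pos (hpos n)]
  congr 1
  rw [hu]
  ring

section general

variable {ι : Type*} [Fintype ι]

/-- weight bounds for a substitution with arbitrary bounds `u j` for the substituted elements -/
lemma wle_aeval {R : Type*} [CommRing R] {w u : ι → ℝ} (F : ι → MvPolynomial ι R)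
    (hF : ∀ i, wle w (u i) (F i)) {r : ℝ} {P : MvPolynomial ι R}
    (hP : ∀ m ∈ P.support, pair m u ≤ r) : wle w r (aeval F P) := by
  classical
  have hmon : ∀ (m : ι →₀ ℕ) (a : R), wle w (pair m u) (aeval F (monomial m a)) := by
    intro m a
    rw [aeval_monomial, Finsupp.prod_fintype _ _ (fun i => pow_zero _)]
    have h1 := (prod_aux (w := w) (Finset.univ : Finset ι) (fun i => (m i : ℝ) * u i)
      (fun i => F i ^ m i) (fun i _ => (pow_aux (hF i) (m i)).1)).1
    have := wle_mul (wle_C (R := R) w a) h1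
    rwa [zero_add] at this
  have hsum : aeval F P = ∑ m ∈ P.support, aeval F (monomial m (coeff m P)) := by
    conv_lhs => rw [P.as_sum]
    rw [map_sum]
  rw [hsum]
  intro k hk
  by_contra hcon
  rw [mem_support_iff] at hk
  apply hk
  rw [coeff_sum]
  refine Finset.sum_eq_zero (fun m hm => (hmon m (coeff m P)).coeff_eq_zero ?_)
  linarith [not_le.1 hcon, hP m hm]

lemma pair_one (m : ι →₀ ℕ) : pair m (1 : ι → ℝ) = ((∑ j, m j : ℕ) : ℝ) := by
  unfold pair
  push_cast
  exact Finset.sum_congr rfl (fun j _ => by simp)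

lemma wle_one_iff {R : Type*} [CommRing R] (P : MvPolynomial ι R) (n : ℕ) :
    wle (1 : ι → ℝ) (n : ℝ) P ↔ P.totalDegree ≤ n := by
  have h0 : P.totalDegree ≤ n ↔ ∀ m ∈ P.support, (m.sum fun _ e => e) ≤ n := by
    unfold totalDegree
    exact Finset.sup_le_iff
  rw [h0]
  unfold wle
  refine forall₂_congr (fun m _ => ?_)
  rw [pair_one]
  constructor
  · intro h
    have h2 : ∑ j, m j ≤ n := by exact_mod_cast h
    have h3 : (m.sum fun _ e => e) = ∑ j, m j := Finsupp.sum_fintype _ _ (fun _ => rfl)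
    omega
  · intro h
    have h3 : (m.sum fun _ e => e) = ∑ j, m j := Finsupp.sum_fintype _ _ (fun _ => rfl)
    exact_mod_cast (h3 ▸ h)

end general

variable {d : ℕ}

/-- the polynomial automorphisms of `ℂ^d`, as algebra automorphisms of the coordinate ring -/
abbrev Au (d : ℕ) := MvPolynomial (Fin d) ℂ ≃ₐ[ℂ] MvPolynomial (Fin d) ℂ

/-- the degree of the `n`-th iterate -/
noncomputable def D (ψ : Au d) (n : ℕ) : ℕ :=
  Finset.univ.sup (fun i : Fin d => ((ψ ^ n) (X i)).totalDegree)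

lemma totalDegree_le_D (ψ : Au d) (n : ℕ) (i : Fin d) : ((ψ ^ n) (X i)).totalDegree ≤ D ψ n :=
  Finset.le_sup (f := fun i : Fin d => ((ψ ^ n) (X i)).totalDegree) (Finset.mem_univ i)

lemma one_le_totalDegree (ψ : Au d) (i : Fin d) : 1 ≤ (ψ (X i)).totalDegree := by
  by_contra hcon
  have h0 : (ψ (X i)).totalDegree = 0 := by omega
  rw [totalDegree_eq_zero_iff_eq_C] at h0
  have h1 : ψ (X i) = ψ (C (coeff 0 (ψ (X i)))) := by
    conv_lhs => rw [h0]
    have : (C (coeff 0 (ψ (X i))) : MvPolynomial (Fin d) ℂ) = algebraMap ℂ _ (coeff 0 (ψ (X i))) := rfl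
    rw [this, AlgEquiv.commutes]
  have h2 := ψ.injective h1
  have h3 := congrArg totalDegree h2
  rw [totalDegree_X, totalDegree_C] at h3
  exact one_ne_zero h3

lemma one_le_D (hd : 0 < d) (ψ : Au d) (n : ℕ) : 1 ≤ D ψ n :=
  (one_le_totalDegree (ψ ^ n) ⟨0, hd⟩).trans (totalDegree_le_D ψ n ⟨0, hd⟩)

lemma apply_eq_aeval (ψ : Au d) (P : MvPolynomial (Fin d) ℂ) :
    ψ P = aeval (fun i => ψ (X i)) P := by
  have h : (ψ : MvPolynomial (Fin d) ℂ →ₐ[ℂ] MvPolynomial (Fin d) ℂ) =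
      aeval (fun i => ψ (X i)) := by
    ext i
    simp
  have := DFunLike.congr_fun h P
  simpa using this

lemma D_mul (ψ : Au d) (m n : ℕ) : D ψ (m + n) ≤ D ψ m * D ψ n := by
  refine Finset.sup_le (fun i _ => ?_)
  rw [pow_add, AlgEquiv.mul_apply, apply_eq_aeval (ψ ^ m), ← wle_one_iff]
  refine wle_aeval (u := fun _ => (D ψ m : ℝ)) _ (fun j => ?_) (fun k hk => ?_)
  · rw [wle_one_iff]
    exact totalDegree_le_D ψ m j
  · have h1 : pair k (fun _ => (D ψ m : ℝ)) = (D ψ m : ℝ) * pair k (1 : Fin d → ℝ) := by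
      rw [← pair_smul]
      congr 1
      funext j
      simp
    rw [h1]
    push_cast
    refine mul_le_mul_of_nonneg_left ?_ (Nat.cast_nonneg _)
    exact (wle_one_iff _ _).2 (totalDegree_le_D ψ n i) k hk

/-- the dynamical degree of `ψ` is `lam` -/
def IsDyn (ψ : Au d) (lam : ℝ) : Prop :=
  Tendsto (fun n : ℕ => ((D ψ n : ℕ) : ℝ) ^ ((1 : ℝ) / (n : ℝ))) atTop (𝓝 lam)

lemma exists_isDyn (hd : 0 < d) (ψ : Au d) : ∃ L : ℝ, 1 ≤ L ∧ IsDyn ψ L :=
  exists_lim (a := fun n => (D ψ n : ℝ)) (fun n => by exact_mod_cast one_le_D hd ψ n)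
    (fun m n => by exact_mod_cast D_mul ψ m n)

section bound

variable (S : Fin d → Finset (Fin d →₀ ℕ)) (hS : ∀ i, (S i).Nonempty)

lemma wle_iter (ψ : Au d) (hsupp : ∀ i, (ψ (X i)).support ⊆ S i) (n : ℕ) (i : Fin d) :
    wle (1 : Fin d → ℝ) ((T S hS)^[n] 1 i) ((ψ ^ n) (X i)) := by
  classical
  induction n generalizing i with
  | zero =>
    intro m hm
    simp only [pow_zero, AlgEquiv.one_apply, Function.iterate_zero, id_eq, Pi.one_apply] at hm ⊢
    rw [support_X, Finset.mem_singleton] at hm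
    rw [hm, pair_one]
    have : ∑ j, (Finsupp.single i 1 : Fin d →₀ ℕ) j = 1 := by
      rw [Finset.sum_eq_single i]
      · simp
      · intro j _ hj; simp [Finsupp.single_apply, hj.symm]
      · simp
    rw [this]
    simp
  | succ n ih =>
    rw [pow_succ, AlgEquiv.mul_apply, apply_eq_aeval (ψ ^ n)]
    refine wle_aeval (u := (T S hS)^[n] 1) _ ih (fun m hm => ?_)
    rw [Function.iterate_succ_apply']
    exact le_T S hS (hsupp i hm) _

lemma D_le_N (ψ : Au d) (hsupp : ∀ i, (ψ (X i)).support ⊆ S i) (n : ℕ) :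
    (D ψ n : ℝ) ≤ N S hS n := by
  have h1 : D ψ n ≤ ⌊N S hS n⌋₊ := by
    refine Finset.sup_le (fun i _ => ?_)
    rw [Nat.le_floor_iff (N_nonneg S hS n)]
    obtain ⟨m, hm, hmd⟩ : ∃ m ∈ ((ψ ^ n) (X i)).support,
        ((ψ ^ n) (X i)).totalDegree = m.sum fun _ e => e := by
      refine Finset.exists_mem_eq_sup _ ?_ _
      rw [support_nonempty]
      intro h0
      have := one_le_totalDegree (ψ ^ n) i
      rw [h0, totalDegree_zero] at this
      omega
    rw [hmd, Finsupp.sum_fintype _ _ (fun _ => rfl), ← pair_one]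
    refine (wle_iter S hS ψ hsupp n i m hm).trans ?_
    exact (le_abs_self _).trans (norm_le_pi_norm ((T S hS)^[n] 1) i)
  exact (Nat.cast_le.2 h1).trans (Nat.floor_le (N_nonneg S hS n))

end bound

end Run7.h640
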