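import Mathlib
import Pool.Agent.Run7.h640.Twist

set_option autoImplicit false

namespace Run7.h640

open Topology MvPolynomial

variable {d : ℕ}

/-- tops of the iterates of a twisted automorphism -/
lemma iter_top {w : Fin d → ℝ} {θ : ℝ} (hθ : 0 < θ) (F : Fin d → MvPolynomial (Fin d) ℂ)
    (hF : ∀ i, wle w (θ * w i) (F i)) (ψ : Au d) (hψ : ∀ i, ψ (X i) = F i) (n : ℕ) (i : Fin d) :
    wle w (θ ^ n * w i) ((ψ ^ n) (X i)) ∧
      top w (θ ^ n * w i) ((ψ ^ n) (X i)) =
        ((aeval (fun i => top w (θ * w i) (F i)) :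
          MvPolynomial (Fin d) ℂ →ₐ[ℂ] MvPolynomial (Fin d) ℂ).toRingHom ^ n) (X i) := by
  classical
  induction n with
  | zero =>
    have hX : ∀ m ∈ (X i : MvPolynomial (Fin d) ℂ).support, pair m w = w i := by
      intro m hm
      rw [support_X, Finset.mem_singleton] at hm
      rw [hm]
      unfold pair
      rw [Finset.sum_eq_single i]
      · simp
      · intro j _ hj; simp [hj.symm]
      · simp
    simp only [pow_zero, AlgEquiv.one_apply, one_mul, RingHom.one_def, RingHom.id_apply]
    refine ⟨fun m hm => (hX m hm).le, ?_⟩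
    ext m
    rw [coeff_top]
    split_ifs with h
    · rfl
    · symm
      by_contra hne
      exact h (hX m (mem_support_iff.2 hne))
  | succ n ih =>
    have h1 := subst_aux hθ F hF ih.1
    have h2 : (ψ ^ (n + 1)) (X i) = aeval F ((ψ ^ n) (X i)) := by
      rw [pow_succ', AlgEquiv.mul_apply, apply_eq_aeval ψ]
      congr 1
      exact congrArg _ (funext hψ)
    have h3 : θ ^ (n + 1) * w i = θ * (θ ^ n * w i) := by ring
    rw [h2, h3]
    refine ⟨h1.1, ?_⟩
    rw [h1.2, ih.2, pow_succ']
    rfl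

/-- nonvanishing of the tops of the iterates gives a lower bound for the degrees -/
lemma pow_le_D {w : Fin d → ℝ} (hw1 : ‖w‖ = 1) {θ : ℝ} (hθ : 0 < θ)
    (F : Fin d → MvPolynomial (Fin d) ℂ)
    (hF : ∀ i, wle w (θ * w i) (F i)) (ψ : Au d) (hψ : ∀ i, ψ (X i) = F i)
    {i : Fin d} (hi : w i = 1)
    (hne : ∀ n, ((aeval (fun i => top w (θ * w i) (F i)) :
          MvPolynomial (Fin d) ℂ →ₐ[ℂ] MvPolynomial (Fin d) ℂ).toRingHom ^ n) (X i) ≠ 0) (n : ℕ) :
    θ ^ n ≤ D ψ n := by
  have h1 := (iter_top hθ F hF ψ hψ n i).2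
  have h2 : top w (θ ^ n * w i) ((ψ ^ n) (X i)) ≠ 0 := by
    rw [h1]; exact hne n
  obtain ⟨m, hm⟩ := ne_zero_iff.1 h2
  rw [coeff_top] at hm
  split_ifs at hm with h3
  · have hms : m ∈ ((ψ ^ n) (X i)).support := mem_support_iff.2 hm
    rw [hi, mul_one] at h3
    rw [← h3]
    have hw1' : w ≤ 1 := by
      intro j
      rw [Pi.one_apply, ← hw1]
      exact (le_abs_self _).trans (norm_le_pi_norm w j)
    refine (pair_mono m hw1').trans ?_
    exact (wle_one_iff _ _).2 (totalDegree_le_D ψ n i) m hms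
  · exact absurd rfl hm

/-- **genericity** -/
lemma exists_generic (g : Fin d → MvPolynomial (Fin d) ℂ)
    (hg : ∀ i, g i ≠ 0) (i : Fin d) :
    ∃ p : MvPolynomial (Fin d) ℂ, p ≠ 0 ∧ ∀ c : Fin d → ℂ, eval c p ≠ 0 →
      ∀ n, ((aeval (fun j => C (c j) * g j) :
          MvPolynomial (Fin d) ℂ →ₐ[ℂ] MvPolynomial (Fin d) ℂ).toRingHom ^ n) (X i) ≠ 0 := by
  classical
  -- a point where nothing vanishes
  obtain ⟨a, ha⟩ : ∃ a : Fin d → ℂ, eval a (∏ j, (X j * g j)) ≠ 0 := by
    by_contra hcon
    push Not at hcon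
    have h0 : (∏ j, (X j * g j) : MvPolynomial (Fin d) ℂ) = 0 := by
      apply MvPolynomial.funext
      intro x
      rw [hcon x, map_zero]
    rw [Finset.prod_eq_zero_iff] at h0
    obtain ⟨j, -, hj⟩ := h0
    rcases mul_eq_zero.1 hj with h | h
    · exact X_ne_zero j h
    · exact hg j h
  rw [map_prod, Finset.prod_ne_zero_iff] at ha
  have ha1 : ∀ j, a j ≠ 0 := fun j => by
    have := ha j (Finset.mem_univ j)
    rw [map_mul, eval_X] at this
    exact left_ne_zero_of_mul this
  have ha2 : ∀ j, eval a (g j) ≠ 0 := fun j => by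
    have := ha j (Finset.mem_univ j)
    rw [map_mul, eval_X] at this
    exact right_ne_zero_of_mul this
  let G : (Fin d → ℂ) → (MvPolynomial (Fin d) ℂ →+* MvPolynomial (Fin d) ℂ) := fun c =>
    (aeval (fun j => C (c j) * g j) : MvPolynomial (Fin d) ℂ →ₐ[ℂ] MvPolynomial (Fin d) ℂ).toRingHom
  let c0 : Fin d → ℂ := fun j => a j / eval a (g j)
  have hc0 : ∀ n P, eval a ((G c0 ^ n) P) = eval a P := by
    have h1 : (eval a).comp (G c0) = eval a := by
      apply ringHom_ext
      · intro r
        simp [G]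
      · intro j
        simp only [G, c0, RingHom.comp_apply, AlgHom.toRingHom_eq_coe, RingHom.coe_coe, aeval_X,
          map_mul, eval_C, eval_X]
        exact div_mul_cancel₀ _ (ha2 j)
    intro n
    induction n with
    | zero => intro P; rfl
    | succ n ih =>
      intro P
      rw [pow_succ]
      change eval a ((G c0 ^ n) (G c0 P)) = eval a P
      rw [ih]
      exact DFunLike.congr_fun h1 P
  -- the universal endomorphism
  let B := MvPolynomial (Fin d) ℂ
  let Φ : MvPolynomial (Fin d) B →+* MvPolynomial (Fin d) B :=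
    eval₂Hom (C : B →+* MvPolynomial (Fin d) B)
      (fun j => C (X j : B) * map (C : ℂ →+* B) (g j))
  have hspec : ∀ (c : Fin d → ℂ) (n : ℕ) (P : MvPolynomial (Fin d) B),
      map (eval c) ((Φ ^ n) P) = (G c ^ n) (map (eval c) P) := by
    intro c
    have h1 : (map (eval c)).comp Φ = (G c).comp (map (eval c)) := by
      apply ringHom_ext
      · intro r
        simp [Φ, G]
      · intro j
        have h2 : (eval c).comp (C : ℂ →+* B) = RingHom.id ℂ := by
          ext r <;> simp
        simp only [Φ, G, RingHom.comp_apply, coe_eval₂Hom, eval₂_X, map_mul, map_C, eval_X,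
          map_map, h2, map_id, map_X, AlgHom.toRingHom_eq_coe, RingHom.coe_coe, aeval_X]
    intro n
    induction n with
    | zero => intro P; rfl
    | succ n ih =>
      intro P
      rw [pow_succ, pow_succ]
      change map (eval c) ((Φ ^ n) (Φ P)) = (G c ^ n) (G c (map (eval c) P))
      rw [ih]
      congr 1
      exact DFunLike.congr_fun h1 P
  have hne : (Φ ^ d) (X i) ≠ 0 := by
    intro h0
    have h1 := hspec c0 d (X i)
    rw [h0, map_zero, map_X] at h1
    have h2 := hc0 d (X i)
    rw [← h1, map_zero, eval_X] at h2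
    exact ha1 i h2.symm
  obtain ⟨m, hm⟩ := ne_zero_iff.1 hne
  refine ⟨coeff m ((Φ ^ d) (X i)), hm, fun c hc => ?_⟩
  have h1 : (G c ^ d) (X i) ≠ 0 := by
    intro h0
    have h2 := hspec c d (X i)
    rw [map_X, h0] at h2
    have h3 := congrArg (coeff m) h2
    rw [coeff_map, coeff_zero] at h3
    exact hc h3
  intro n
  have h2 := iterate_ne_zero (G c) (X i) (by rwa [Fintype.card_fin])
  exact h2 n

end Run7.h640
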