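import Mathlib
import Pool.Agent.Run7.h640.Main

set_option autoImplicit false

namespace Run7.h640

open Topology MvPolynomial

variable {d : ℕ}

/-- if the eigenvector has `ℚ`-independent coordinates then the eigenvalue is at most one -/
lemma theta_le_one (φ : Au d) (hd : 0 < d) {w : Fin d → ℝ} {θ : ℝ} (hθ0 : 0 < θ)
    (hw0 : 0 ≤ w) (hF : ∀ i, wle w (θ * w i) (φ (X i)))
    (hg : ∀ i, top w (θ * w i) (φ (X i)) ≠ 0)
    (hli : LinearIndependent ℚ w) : θ ≤ 1 := by
  classical
  have hpos : ∀ i, 0 < w i := fun i => lt_of_le_of_ne (hw0 i) (hli.ne_zero i).symm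
  have hinj : ∀ m m' : Fin d →₀ ℕ, pair m w = pair m' w → m = m' := by
    intro m m' h
    rw [Fintype.linearIndependent_iff] at hli
    have h1 : ∑ j, ((m j : ℚ) - (m' j : ℚ)) • w j = 0 := by
      have h2 : pair m w - pair m' w = 0 := sub_eq_zero.2 h
      unfold pair at h2
      rw [← Finset.sum_sub_distrib] at h2
      rw [← h2]
      refine Finset.sum_congr rfl (fun j _ => ?_)
      rw [Rat.smul_def]
      push_cast
      ring
    ext j
    have h3 := hli _ h1 j
    have h4 : (m j : ℚ) = m' j := by linarith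
    exact_mod_cast h4
  -- the index of the least weight
  have : Nonempty (Fin d) := ⟨⟨0, hd⟩⟩
  obtain ⟨i, hi⟩ := Finite.exists_min w
  set P : MvPolynomial (Fin d) ℂ := φ.symm (X i) with hP
  have hP0 : P ≠ 0 := by
    rw [hP]
    intro h0
    have := congrArg φ h0
    rw [AlgEquiv.apply_symm_apply, map_zero] at this
    exact X_ne_zero i this
  obtain ⟨m0, hm0, hle, -⟩ := exists_top (w := w) hP0
  set r := pair m0 w with hr
  have htop : top w r P = monomial m0 (coeff m0 P) := by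
    ext k
    rw [coeff_top, coeff_monomial]
    by_cases hk : m0 = k
    · subst hk; simp [hr]
    · rw [if_neg hk, if_neg]
      intro h
      exact hk (hinj _ _ (h.trans hr)).symm
  have hsub := subst_aux hθ0 (fun i => φ (X i)) hF hle
  have hφP : aeval (fun i => φ (X i)) P = X i := by
    rw [← apply_eq_aeval φ, hP, AlgEquiv.apply_symm_apply]
  rw [hφP, htop, aeval_monomial, Finsupp.prod_fintype _ _ (fun i => pow_zero _)] at hsub
  have hne : top w (θ * r) (X i : MvPolynomial (Fin d) ℂ) ≠ 0 := by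
    rw [hsub.2]
    refine mul_ne_zero ?_ (Finset.prod_ne_zero_iff.2 (fun j _ => pow_ne_zero _ (hg j)))
    have : (algebraMap ℂ (MvPolynomial (Fin d) ℂ)) (coeff m0 P) = C (coeff m0 P) := rfl
    rw [this]
    intro h0
    exact (mem_support_iff.1 hm0) (C_eq_zero.1 h0)
  obtain ⟨k, hk⟩ := ne_zero_iff.1 hne
  rw [coeff_top] at hk
  split_ifs at hk with h
  · have hks : k ∈ (X i : MvPolynomial (Fin d) ℂ).support := mem_support_iff.2 hk
    rw [support_X, Finset.mem_singleton] at hks
    have h1 : pair k w = w i := by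
      rw [hks]
      unfold pair
      rw [Finset.sum_eq_single i]
      · simp
      · intro j _ hj; simp [hj.symm]
      · simp
    rw [h1] at h
    -- `P` is not constant
    obtain ⟨m, hm, hm1⟩ : ∃ m ∈ P.support, m ≠ 0 := by
      by_contra hcon
      push Not at hcon
      have h2 : P = C (coeff 0 P) := by
        ext m
        rw [coeff_C]
        by_cases hm : 0 = m
        · subst hm; simp
        · rw [if_neg hm]
          by_contra hne'
          exact hm (hcon m (mem_support_iff.2 hne')).symm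
      have h3 := one_le_totalDegree φ.symm i
      rw [← hP, h2, totalDegree_C] at h3
      omega
    obtain ⟨j, hj⟩ : ∃ j, m j ≠ 0 := by
      by_contra hcon
      push Not at hcon
      exact hm1 (Finsupp.ext hcon)
    have h4 : w i ≤ pair m w := by
      refine (hi j).trans ?_
      unfold pair
      have h5 : w j ≤ (m j : ℝ) * w j := by
        have : (1 : ℝ) ≤ m j := by exact_mod_cast Nat.one_le_iff_ne_zero.2 hj
        nlinarith [hpos j]
      refine h5.trans (Finset.single_le_sum (f := fun j => (m j : ℝ) * w j)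
        (fun k _ => mul_nonneg (Nat.cast_nonneg _) (hw0 k)) (Finset.mem_univ j))
    have h6 : w i ≤ r := h4.trans (hle m hm)
    have h7 := hpos i
    by_contra hcon
    push Not at hcon
    nlinarith
  · exact absurd rfl hk

lemma natDegree_minpoly_one : (minpoly ℤ (1 : ℝ)).natDegree ≤ 1 := by
  have h1 : IsIntegral ℤ (1 : ℝ) := isIntegral_one
  have h2 : minpoly ℤ (1 : ℝ) ∣ (Polynomial.X - Polynomial.C 1) :=
    minpoly.isIntegrallyClosed_dvd h1 (by simp)
  have h3 := Polynomial.natDegree_le_of_dvd h2 (Polynomial.X_sub_C_ne_zero 1)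
  rwa [Polynomial.natDegree_X_sub_C] at h3

/-- the tropical data of an automorphism -/
theorem exists_data (hd : 2 ≤ d) (φ : Au d) :
    ∃ θ : ℝ, 1 ≤ θ ∧ IsIntegral ℤ θ ∧ (minpoly ℤ θ).natDegree ≤ d - 1 ∧
      (∀ μ : ℂ, Polynomial.aeval μ (minpoly ℤ θ) = 0 → ‖μ‖ ≤ θ) ∧
      ∃ hS : ∀ i, ((fun i => (φ (X i)).support) i).Nonempty,
        Filter.Tendsto (fun n : ℕ => (N (fun i => (φ (X i)).support) hS n) ^ ((1 : ℝ) / n))
          Filter.atTop (𝓝 θ) ∧
        (∀ ψ : Au d, (∀ i, (ψ (X i)).support ⊆ (φ (X i)).support) → ∀ n,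
          (D ψ n : ℝ) ≤ N (fun i => (φ (X i)).support) hS n) ∧
      ∃ w : Fin d → ℝ, ‖w‖ = 1 ∧ (∀ i, wle w (θ * w i) (φ (X i))) ∧
        (∀ i, top w (θ * w i) (φ (X i)) ≠ 0) ∧ ∃ i, w i = 1 := by
  classical
  have hd0 : 0 < d := by omega
  have : Nonempty (Fin d) := ⟨⟨0, hd0⟩⟩
  set S : Fin d → Finset (Fin d →₀ ℕ) := fun i => (φ (X i)).support with hSdef
  have hS : ∀ i, (S i).Nonempty := by
    intro i
    rw [hSdef]
    simp only
    rw [support_nonempty]
    intro h0
    have := one_le_totalDegree φ i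
    rw [h0, totalDegree_zero] at this
    omega
  have hN1 : ∀ n, 1 ≤ N S hS n := by
    intro n
    refine le_trans ?_ (D_le_N S hS φ (fun i => le_rfl) n)
    exact_mod_cast one_le_D hd0 φ n
  obtain ⟨θ, hθ1, hθ, hlow⟩ := exists_theta S hS hN1
  obtain ⟨w, hw0, hw1, hTw⟩ := exists_eigenvector S hS hθ1 hθ hlow
  have hwne : w ≠ 0 := by
    intro h0
    rw [h0, norm_zero] at hw1
    exact zero_ne_one hw1
  have hθ0 : 0 < θ := by linarith
  obtain ⟨hint, hconj, hdeg⟩ := theta_arith S hS hθ1 hθ hwne hTw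
  have hF : ∀ i, wle w (θ * w i) (φ (X i)) := by
    intro i m hm
    have h1 := le_T S hS (i := i) hm w
    rw [hTw] at h1
    simpa using h1
  have hg : ∀ i, top w (θ * w i) (φ (X i)) ≠ 0 := by
    intro i h0
    obtain ⟨m, hm, hmw⟩ := exists_T_eq S hS w i
    rw [hTw] at hmw
    have h1 := congrArg (coeff m) h0
    rw [coeff_top, if_pos (by simpa using hmw), coeff_zero] at h1
    exact (mem_support_iff.1 hm) h1
  refine ⟨θ, hθ1, hint, ?_, hconj, hS, hθ, fun ψ hψ n => D_le_N S hS ψ hψ n, w, hw1,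
    hF, hg, ?_⟩
  · by_contra hcon
    have hge : d ≤ (minpoly ℤ θ).natDegree := by omega
    have hli : LinearIndependent ℚ w := by
      rw [linearIndependent_iff_card_le_finrank_span, Fintype.card_fin]
      exact hge.trans hdeg
    have h1 := theta_le_one φ hd0 hθ0 hw0 hF hg hli
    have h2 : θ = 1 := le_antisymm h1 hθ1
    have h3 := natDegree_minpoly_one
    rw [h2] at hge
    omega
  · by_contra hcon
    push Not at hcon
    have hlt : ∀ i, ‖w i‖ < 1 := by
      intro i
      rw [Real.norm_eq_abs, abs_of_nonneg (hw0 i)]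
      refine lt_of_le_of_ne ?_ (hcon i)
      rw [← hw1]
      exact (le_abs_self _).trans (norm_le_pi_norm w i)
    have h1 : ‖w‖ < 1 := (pi_norm_lt_iff one_pos).2 hlt
    rw [hw1] at h1
    exact lt_irrefl _ h1

/-- the automorphism multiplying the coordinate `X i` by `c i` -/
noncomputable def diag (c : Fin d → ℂˣ) : Au d :=
  AlgEquiv.ofAlgHom (aeval (fun i => C (c i : ℂ) * X i)) (aeval (fun i => C ((c i)⁻¹ : ℂˣ).1 * X i))
    (by
      ext i
      simp only [AlgHom.comp_apply, aeval_X, map_mul, AlgHom.id_apply]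
      have : (aeval fun i => C (c i : ℂ) * X i : MvPolynomial (Fin d) ℂ →ₐ[ℂ] _)
          (C ((c i)⁻¹ : ℂˣ).1) = C ((c i)⁻¹ : ℂˣ).1 := by
        exact AlgHom.commutes _ _
      rw [this, ← mul_assoc, ← C_mul, ← Units.val_mul, inv_mul_cancel, Units.val_one, C_1, one_mul])
    (by
      ext i
      simp only [AlgHom.comp_apply, aeval_X, map_mul, AlgHom.id_apply]
      have : (aeval fun i => C ((c i)⁻¹ : ℂˣ).1 * X i : MvPolynomial (Fin d) ℂ →ₐ[ℂ] _)
          (C (c i : ℂ)) = C (c i : ℂ) := by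
        exact AlgHom.commutes _ _
      rw [this, ← mul_assoc, ← C_mul, ← Units.val_mul, mul_inv_cancel, Units.val_one, C_1, one_mul])

lemma diag_X (c : Fin d → ℂˣ) (i : Fin d) : diag c (X i) = C (c i : ℂ) * X i :=
  aeval_X (fun i => (C (c i : ℂ) * X i : MvPolynomial (Fin d) ℂ)) i

/-- `twist φ c` corresponds to the map `D_c ∘ f` if `φ` corresponds to `f` -/
noncomputable def twist (φ : Au d) (c : Fin d → ℂˣ) : Au d := (diag c).trans φ

lemma twist_X (φ : Au d) (c : Fin d → ℂˣ) (i : Fin d) :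
    twist φ c (X i) = C (c i : ℂ) * φ (X i) := by
  rw [twist, AlgEquiv.trans_apply, diag_X, map_mul]
  congr 1
  exact AlgEquiv.commutes φ _

lemma twist_support (φ : Au d) (c : Fin d → ℂˣ) (i : Fin d) :
    (twist φ c (X i)).support ⊆ (φ (X i)).support := by
  classical
  intro m hm
  rw [mem_support_iff, twist_X, coeff_C_mul] at hm
  rw [mem_support_iff]
  exact right_ne_zero_of_mul hm

theorem main (hd : 2 ≤ d) (φ : Au d) :
    ∃ lam : ℝ, 1 ≤ lam ∧ IsIntegral ℤ lam ∧ (minpoly ℤ lam).natDegree ≤ d - 1 ∧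
      (∀ μ : ℂ, Polynomial.aeval μ (minpoly ℤ lam) = 0 → ‖μ‖ ≤ lam) ∧
      (∀ c : Fin d → ℂˣ, ∃ lam' ≤ lam, IsDyn (twist φ c) lam') ∧
      ∃ p : MvPolynomial (Fin d) ℂ, p ≠ 0 ∧
        ∀ c : Fin d → ℂˣ, eval (fun i => (c i : ℂ)) p ≠ 0 → IsDyn (twist φ c) lam := by
  classical
  obtain ⟨θ, hθ1, hint, hdeg, hconj, hS, ha, hDa, w, hw1, hF, hg, i, hi⟩ := exists_data hd φ
  have hθ0 : 0 < θ := by linarith
  set a : ℕ → ℝ := fun n => N (fun i => (φ (X i)).support) hS n with hadef
  have hup : ∀ c : Fin d → ℂˣ, ∀ n : ℕ, (D (twist φ c) n : ℝ) ^ ((1 : ℝ) / n) ≤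
      (a n) ^ ((1 : ℝ) / n) := fun c n =>
    Real.rpow_le_rpow (Nat.cast_nonneg _) (hDa _ (twist_support φ c) n) (by positivity)
  refine ⟨θ, hθ1, hint, hdeg, hconj, ?_, ?_⟩
  · intro c
    obtain ⟨L, -, hL⟩ := exists_isDyn (by omega) (twist φ c)
    exact ⟨L, le_of_tendsto_of_tendsto' hL ha (hup c), hL⟩
  · obtain ⟨p, hp0, hp⟩ := exists_generic (fun i => top w (θ * w i) (φ (X i))) hg i
    refine ⟨p, hp0, fun c hc => ?_⟩
    have htopc : ∀ j, top w (θ * w j) (C (c j : ℂ) * φ (X j)) =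
        C (c j : ℂ) * top w (θ * w j) (φ (X j)) := by
      intro j
      ext m
      rw [coeff_top, coeff_C_mul, coeff_C_mul, coeff_top]
      split_ifs <;> simp
    have hFc : ∀ j, wle w (θ * w j) (C (c j : ℂ) * φ (X j)) := by
      intro j m hm
      rw [mem_support_iff, coeff_C_mul] at hm
      exact hF j m (mem_support_iff.2 (right_ne_zero_of_mul hm))
    have hlow : ∀ n, θ ^ n ≤ D (twist φ c) n := by
      refine pow_le_D hw1 hθ0 (fun j => C (c j : ℂ) * φ (X j)) hFc (twist φ c) (twist_X φ c) hi ?_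
      intro n
      simp only [htopc]
      exact hp _ hc n
    refine tendsto_of_tendsto_of_tendsto_of_le_of_le' tendsto_const_nhds ha ?_
      (Filter.Eventually.of_forall (hup c))
    filter_upwards [Filter.eventually_gt_atTop 0] with n hn
    have hn' : (0 : ℝ) < n := by exact_mod_cast hn
    have h2 : (θ ^ n) ^ ((1 : ℝ) / n) ≤ (D (twist φ c) n : ℝ) ^ ((1 : ℝ) / n) :=
      Real.rpow_le_rpow (pow_nonneg hθ0.le n) (hlow n) (by positivity)
    rwa [← Real.rpow_natCast, ← Real.rpow_mul hθ0.le, mul_one_div, div_self hn'.ne',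
      Real.rpow_one] at h2

end Run7.h640
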