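import Mathlib
import Pool.Agent.Run7.h640.Final

set_option autoImplicit false

namespace Run7.h640

open Topology MvPolynomial

variable {ι : Type*} [Fintype ι]

/-- polynomials with nonnegative real coefficients -/
def NN (P : MvPolynomial ι ℂ) : Prop := ∀ m, ∃ r : ℝ, 0 ≤ r ∧ coeff m P = (r : ℂ)

lemma NN.add {P Q : MvPolynomial ι ℂ} (hP : NN P) (hQ : NN Q) : NN (P + Q) := by
  intro m
  obtain ⟨r, hr, h1⟩ := hP m
  obtain ⟨s, hs, h2⟩ := hQ m
  exact ⟨r + s, add_nonneg hr hs, by rw [coeff_add, h1, h2]; push_cast; rfl⟩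

lemma NN.zero : NN (0 : MvPolynomial ι ℂ) := fun m => ⟨0, le_rfl, by simp⟩

lemma NN.sum {κ : Type*} (s : Finset κ) (f : κ → MvPolynomial ι ℂ) (h : ∀ k ∈ s, NN (f k)) :
    NN (∑ k ∈ s, f k) := by
  classical
  induction s using Finset.induction_on with
  | empty => simpa using NN.zero
  | insert a s ha ih =>
    rw [Finset.sum_insert ha]
    exact (h a (Finset.mem_insert_self a s)).add (ih (fun k hk => h k (Finset.mem_insert_of_mem hk)))

lemma NN.mul {P Q : MvPolynomial ι ℂ} (hP : NN P) (hQ : NN Q) : NN (P * Q) := by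
  classical
  intro m
  choose r hr h1 using hP
  choose s hs h2 using hQ
  refine ⟨∑ x ∈ Finset.HasAntidiagonal.antidiagonal m, r x.1 * s x.2,
    Finset.sum_nonneg (fun x _ => mul_nonneg (hr _) (hs _)), ?_⟩
  rw [coeff_mul]
  push_cast
  exact Finset.sum_congr rfl (fun x _ => by rw [h1, h2])

lemma NN.C {a : ℂ} (ha : ∃ r : ℝ, 0 ≤ r ∧ a = (r : ℂ)) : NN (C a : MvPolynomial ι ℂ) := by
  classical
  intro m
  rw [coeff_C]
  split_ifs
  · exact ha
  · exact ⟨0, le_rfl, by simp⟩

lemma NN.one : NN (1 : MvPolynomial ι ℂ) := by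
  have := NN.C (ι := ι) (a := 1) ⟨1, zero_le_one, by simp⟩
  simpa using this

lemma NN.pow {P : MvPolynomial ι ℂ} (hP : NN P) (n : ℕ) : NN (P ^ n) := by
  induction n with
  | zero => simpa using NN.one
  | succ n ih => rw [pow_succ]; exact ih.mul hP

lemma NN.prod {κ : Type*} (s : Finset κ) (f : κ → MvPolynomial ι ℂ) (h : ∀ k ∈ s, NN (f k)) :
    NN (∏ k ∈ s, f k) := by
  classical
  induction s using Finset.induction_on with
  | empty => simpa using NN.one
  | insert a s ha ih =>
    rw [Finset.prod_insert ha]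
    exact (h a (Finset.mem_insert_self a s)).mul (ih (fun k hk => h k (Finset.mem_insert_of_mem hk)))

/-- the support of a sum of two nonnegative polynomials contains both supports -/
lemma NN.support_add {P Q : MvPolynomial ι ℂ} (hP : NN P) (hQ : NN Q) :
    P.support ⊆ (P + Q).support := by
  intro m hm
  rw [mem_support_iff] at hm ⊢
  obtain ⟨r, hr, h1⟩ := hP m
  obtain ⟨s, hs, h2⟩ := hQ m
  rw [coeff_add, h1, h2]
  rw [h1] at hm
  have hr0 : r ≠ 0 := by
    intro h0; apply hm; rw [h0]; simp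
  have hpos : 0 < r + s := by positivity
  intro h0
  have h3 : ((r + s : ℝ) : ℂ) = 0 := by push_cast; exact h0
  have h4 : r + s = 0 := by exact_mod_cast h3
  linarith

lemma NN.support_sum {κ : Type*} (s : Finset κ) (f : κ → MvPolynomial ι ℂ) (h : ∀ k ∈ s, NN (f k))
    {k : κ} (hk : k ∈ s) : (f k).support ⊆ (∑ k ∈ s, f k).support := by
  classical
  rw [← Finset.add_sum_erase s f hk]
  exact (h k hk).support_add (NN.sum _ _ (fun j hj => h j (Finset.mem_of_mem_erase hj)))

/-- products: exponents add -/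
lemma NN.support_mul {P Q : MvPolynomial ι ℂ} (hP : NN P) (hQ : NN Q) {a b : ι →₀ ℕ}
    (ha : a ∈ P.support) (hb : b ∈ Q.support) : a + b ∈ (P * Q).support := by
  classical
  rw [mem_support_iff] at ha hb ⊢
  choose r hr h1 using hP
  choose s hs h2 using hQ
  rw [coeff_mul]
  have h3 : ∑ x ∈ Finset.HasAntidiagonal.antidiagonal (a + b), coeff x.1 P * coeff x.2 Q =
      ((∑ x ∈ Finset.HasAntidiagonal.antidiagonal (a + b), r x.1 * s x.2 : ℝ) : ℂ) := by
    push_cast
    exact Finset.sum_congr rfl (fun x _ => by rw [h1, h2])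
  rw [h3]
  have hra : 0 < r a := by
    refine lt_of_le_of_ne (hr a) (fun h0 => ha ?_)
    rw [h1, ← h0]; simp
  have hsb : 0 < s b := by
    refine lt_of_le_of_ne (hs b) (fun h0 => hb ?_)
    rw [h2, ← h0]; simp
  have hpos : 0 < ∑ x ∈ Finset.HasAntidiagonal.antidiagonal (a + b), r x.1 * s x.2 := by
    refine Finset.sum_pos' (fun x _ => mul_nonneg (hr _) (hs _)) ⟨(a, b), ?_, mul_pos hra hsb⟩
    rw [Finset.HasAntidiagonal.mem_antidiagonal]
  exact_mod_cast hpos.ne'

lemma NN.support_pow {P : MvPolynomial ι ℂ} (hP : NN P) {a : ι →₀ ℕ} (ha : a ∈ P.support) (n : ℕ) :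
    n • a ∈ (P ^ n).support := by
  classical
  induction n with
  | zero => simp [mem_support_iff]
  | succ n ih =>
    rw [pow_succ, succ_nsmul]
    exact (hP.pow n).support_mul hP ih ha

lemma NN.support_prod {κ : Type*} (s : Finset κ) (f : κ → MvPolynomial ι ℂ)
    (h : ∀ k ∈ s, NN (f k)) (a : κ → (ι →₀ ℕ)) (ha : ∀ k ∈ s, a k ∈ (f k).support) :
    ∑ k ∈ s, a k ∈ (∏ k ∈ s, f k).support := by
  classical
  induction s using Finset.induction_on with
  | empty => simp [mem_support_iff]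
  | insert b s hb ih =>
    rw [Finset.prod_insert hb, Finset.sum_insert hb]
    exact (h b (Finset.mem_insert_self b s)).support_mul
      (NN.prod _ _ (fun k hk => h k (Finset.mem_insert_of_mem hk)))
      (ha b (Finset.mem_insert_self b s))
      (ih (fun k hk => h k (Finset.mem_insert_of_mem hk))
        (fun k hk => ha k (Finset.mem_insert_of_mem hk)))

lemma pair_sum {κ : Type*} (s : Finset κ) (a : κ → (ι →₀ ℕ)) (w : ι → ℝ) :
    pair (∑ k ∈ s, a k) w = ∑ k ∈ s, pair (a k) w := by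
  classical
  induction s using Finset.induction_on with
  | empty => simp [pair_zero_left]
  | insert b s hb ih => rw [Finset.sum_insert hb, Finset.sum_insert hb, pair_add_left, ih]

lemma pair_nsmul (n : ℕ) (a : ι →₀ ℕ) (w : ι → ℝ) : pair (n • a) w = n * pair a w := by
  induction n with
  | zero => simp [pair_zero_left]
  | succ n ih => rw [succ_nsmul, pair_add_left, ih]; push_cast; ring

/-- substitution of nonnegative polynomials attains the tropical value -/
lemma NN.aeval_attains {w u : ι → ℝ} (F : ι → MvPolynomial ι ℂ) (hF : ∀ i, NN (F i))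
    (hu : ∀ i, ∃ m ∈ (F i).support, pair m w = u i) {P : MvPolynomial ι ℂ} (hP : NN P)
    {m : ι →₀ ℕ} (hm : m ∈ P.support) :
    NN (aeval F P) ∧ ∃ k ∈ (aeval F P).support, pair k w = pair m u := by
  classical
  have hsum : aeval F P = ∑ m ∈ P.support, aeval F (monomial m (coeff m P)) := by
    conv_lhs => rw [P.as_sum]
    rw [map_sum]
  have hmon : ∀ m : ι →₀ ℕ, aeval F (monomial m (coeff m P)) =
      MvPolynomial.C (coeff m P) * ∏ i, F i ^ m i := by
    intro m
    rw [aeval_monomial, Finsupp.prod_fintype _ _ (fun i => pow_zero _)]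
    rfl
  have hNN : ∀ m : ι →₀ ℕ, NN (aeval F (monomial m (coeff m P))) := by
    intro m
    rw [hmon]
    exact (NN.C (hP m)).mul (NN.prod _ _ (fun i _ => (hF i).pow _))
  choose a ha hau using hu
  refine ⟨hsum ▸ NN.sum _ _ (fun m _ => hNN m), ∑ i, m i • a i, ?_, ?_⟩
  · rw [hsum]
    refine NN.support_sum P.support (fun m => aeval F (monomial m (coeff m P)))
      (fun m _ => hNN m) hm ?_
    rw [hmon]
    have h1 := NN.support_prod Finset.univ (fun i => F i ^ m i) (fun i _ => (hF i).pow _)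
      (fun i => m i • a i) (fun i _ => (hF i).support_pow (ha i) _)
    rw [mem_support_iff, coeff_C_mul]
    exact mul_ne_zero (mem_support_iff.1 hm) (mem_support_iff.1 h1)
  · rw [pair_sum]
    unfold pair
    refine Finset.sum_congr rfl (fun i _ => ?_)
    have := pair_nsmul (m i) (a i) w
    unfold pair at this
    rw [this]
    have h2 := hau i
    unfold pair at h2
    rw [h2]

variable {d : ℕ}

lemma nn_X (i : Fin d) : NN (X i : MvPolynomial (Fin d) ℂ) := by
  classical
  intro m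
  rw [coeff_X']
  split_ifs
  · exact ⟨1, zero_le_one, by simp⟩
  · exact ⟨0, le_rfl, by simp⟩

lemma nn_iter (φ : Au d) (hφ : ∀ i, NN (φ (X i)))
    (hS : ∀ i, ((fun i => (φ (X i)).support) i).Nonempty) (n : ℕ) (i : Fin d) :
    NN ((φ ^ n) (X i)) ∧ ∃ k ∈ ((φ ^ n) (X i)).support,
      pair k (1 : Fin d → ℝ) = (T (fun i => (φ (X i)).support) hS)^[n] 1 i := by
  classical
  induction n generalizing i with
  | zero =>
    simp only [pow_zero, AlgEquiv.one_apply, Function.iterate_zero, id_eq, Pi.one_apply]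
    refine ⟨nn_X i, Finsupp.single i 1, by rw [support_X, Finset.mem_singleton], ?_⟩
    unfold pair
    rw [Finset.sum_eq_single i]
    · simp
    · intro j _ hj; simp [hj.symm]
    · simp
  | succ n ih =>
    rw [pow_succ, AlgEquiv.mul_apply, apply_eq_aeval (φ ^ n), Function.iterate_succ_apply']
    obtain ⟨m, hm, hmT⟩ := exists_T_eq (fun i => (φ (X i)).support) hS
      ((T (fun i => (φ (X i)).support) hS)^[n] 1) i
    have h := NN.aeval_attains (w := (1 : Fin d → ℝ)) (fun j => (φ ^ n) (X j))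
      (fun j => (ih j).1) (fun j => (ih j).2) (hφ i) hm
    rw [hmT] at h
    exact h

/-- automorphisms with nonnegative coefficients -/
theorem nonneg_main (hd : 2 ≤ d) (φ : Au d) (hφ : ∀ i, NN (φ (X i))) :
    ∃ lam : ℝ, IsDyn φ lam ∧ 1 ≤ lam ∧ IsIntegral ℤ lam ∧ (minpoly ℤ lam).natDegree ≤ d - 1 ∧
      (∀ μ : ℂ, Polynomial.aeval μ (minpoly ℤ lam) = 0 → ‖μ‖ ≤ lam) := by
  obtain ⟨θ, hθ1, hint, hdeg, hconj, hS, ha, hDa, -⟩ := exists_data hd φ
  refine ⟨θ, ?_, hθ1, hint, hdeg, hconj⟩
  unfold IsDyn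
  refine ha.congr (fun n => ?_)
  congr 1
  refine le_antisymm ?_ (hDa φ (fun i => le_rfl) n)
  unfold N
  refine (pi_norm_le_iff_of_nonneg (Nat.cast_nonneg _)).2 (fun i => ?_)
  rw [Real.norm_eq_abs, abs_of_nonneg (iter_nonneg _ hS zero_le_one n i)]
  obtain ⟨-, k, hk, hkT⟩ := nn_iter φ hφ hS n i
  rw [← hkT]
  exact (wle_one_iff _ _).2 (totalDegree_le_D φ n i) k hk

end Run7.h640
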